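import Pool.Agent.H96.T.St2
import Pool.Agent.H96.S.Fin2

/-!
# Covers of products of curves and surfaces
-/

set_option autoImplicit false
set_option linter.unusedSectionVars false

namespace Pool.Agent.H96.T

open Pool.Agent.H19.OG Pool.Agent.H96.S Pool.Agent.H96.VL

/-- The second stage works for all functions. -/
def SS (p : ℕ) (F : Type) [Field F] : Prop :=
  (∃ f : F, ∀ g : F, g ^ p ≠ f) ∧ ∀ f : F, (∀ g : F, g ^ p ≠ f) → ∀ G : Finset F, (∀ g ∈ G, g ≠ 0) →
    ∃ (s : Finset F) (A : Type) (_ : DecidableEq A) (_ : Finite A)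
      (t : A → ValuationSubring F → F), (∀ g ∈ s, g ≠ 0) ∧
      ∀ W, ∃ C : Chart p s t 0 f G ∅, Vle W C.B ∧ C.Good

/-- Regular projective models of surfaces. -/
def RegProj {k K : Type} [Field k] [Field K] [Algebra k K] (F : IntermediateField k K) : Prop :=
  ∃ (N : ℕ) (x : Fin (N + 1) → F), (∀ i, x i ≠ 0) ∧ ∀ i,
    IsRegularRing (Algebra.adjoin k (Set.range fun j => x j / x i)) ∧
    IsFractionRing (Algebra.adjoin k (Set.range fun j => x j / x i)) F

theorem ss_reg {p : ℕ} [Fact p.Prime] {k K : Type} [Field k] [Finite k] [CharP k p] [Field K]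
    [Algebra k K] {F : IntermediateField k K} (htr : Algebra.trdeg k F = 2) (h : RegProj F) :
    SS p F := by
  classical
  have := Fintype.ofFinite k
  have hcF : CharP F p := charP_of_injective_algebraMap (algebraMap k F).injective p
  obtain ⟨N, x, h0, h1⟩ := h
  have hR : Rps k x := ⟨h0, fun i => (h1 i).1, fun i => (h1 i).2⟩
  exact ⟨exists_not_pow hR htr p, fun f hf G hG => stage2 hR htr hf hG⟩

theorem ss_rat {p : ℕ} [Fact p.Prime] {k K : Type} [Field k] [Finite k] [CharP k p] [Field K]
    [Algebra k K] {x y : K}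
    (htr : Algebra.trdeg k (IntermediateField.adjoin k ({x, y} : Set K)) = 2) :
    SS p (IntermediateField.adjoin k ({x, y} : Set K)) := by
  classical
  have := Fintype.ofFinite k
  have hcF : CharP (IntermediateField.adjoin k ({x, y} : Set K)) p :=
    charP_of_injective_algebraMap (algebraMap k _).injective p
  obtain ⟨u, v, hG⟩ := gn_of_adjoin htr
  refine ⟨⟨u, hG.u_not_pow⟩, fun f hf G hG0 => ?_⟩
  obtain ⟨s, A, i1, i2, t, hs, -, H⟩ := S.stage2 (p := p) hG hf hG0
  exact ⟨s, A, i1, i2, t, hs, H⟩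

/-- **The data of a factor.** -/
theorem exists_fd {p : ℕ} [Fact p.Prime] {k : Type} [Field k] [Finite k] [CharP k p] {K : Type}
    [Field K] [Algebra k K] [Algebra (ZMod p) k] (F : IntermediateField k K)
    [Algebra (ZMod p) F] [IsScalarTower (ZMod p) k F] (b : Bool) {r : ℕ} (f : F) (h : Fin r → F)
    (hh : ∀ c, h c ≠ 0)
    (hF : (F.FG ∧ Algebra.trdeg k F = 1) ∨
      (SS p F ∧ Algebra.trdeg k F = 2 ∧ (b = true → ∃ q : F, f = q ^ p - q))) :
    ∃ (A : Type) (_ : Fintype A) (_ : DecidableEq A) (J : Type) (_ : Finite J) (d : ℕ) (on : Bool),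
      (d : Cardinal.{0}) = Algebra.trdeg k F ∧ (on = false → b = false → ∃ q : F, f = q ^ p) ∧
      ∃ M, ∀ M', M ≤ M' → Nonempty (FD p b on F A J d r M' f h) := by
  classical
  have := Fintype.ofFinite k
  have hcF : CharP F p := charP_of_injective_algebraMap (algebraMap k F).injective p
  rcases hF with ⟨h1, h2⟩ | ⟨hS, h2, h3⟩
  · have i1 : Algebra.EssFiniteType k F := IntermediateField.essFiniteType_iff.mpr h1
    have i2 : Algebra.EssFiniteType (ZMod p) F := Algebra.EssFiniteType.comp (ZMod p) k F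
    have htr := Pool.Agent.H96.W2.trdeg_zmod p k F h2
    rcases Bool.eq_false_or_eq_true b with rfl | rfl
    · refine ⟨Unit, inferInstance, inferInstance, Bool, inferInstance, 1, true,
        by rw [h2, Nat.cast_one], fun h => absurd h (by decide), exists_cfd_as p F htr true f h hh⟩
    · by_cases h4 : ∃ q : F, f = q ^ p
      · refine ⟨Unit, inferInstance, inferInstance, Bool, inferInstance, 1, false,
          by rw [h2, Nat.cast_one], fun _ _ => h4, ?_⟩
        obtain ⟨q, hq⟩ := h4
        exact exists_cfd_off p F htr f q hq h hh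
      · refine ⟨Unit, inferInstance, inferInstance, Bool, inferInstance, 1, true,
          by rw [h2, Nat.cast_one], fun h => absurd h (by decide), ?_⟩
        exact exists_cfd_on p F htr f (fun a ha => h4 ⟨a, ha.symm⟩) h hh
  · obtain ⟨⟨f₀, hf₀⟩, hS⟩ := hS
    have hG0 : ∀ g ∈ Finset.univ.image h, g ≠ 0 := by
      intro g hg
      obtain ⟨c, -, rfl⟩ := Finset.mem_image.mp hg
      exact hh c
    have hGm : ∀ c, h c ∈ Finset.univ.image h := fun c =>
      Finset.mem_image_of_mem _ (Finset.mem_univ c)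
    have hoff : ∀ {q₀ : F},
        f - q₀ ^ p + cond b q₀ 0 = 0 →
        ∃ (A : Type) (_ : Fintype A) (_ : DecidableEq A) (J : Type) (_ : Finite J) (M : ℕ),
          ∀ M', M ≤ M' → Nonempty (FD p b false _ A J 2 r M' f h) := by
      intro q₀ hq
      obtain ⟨s, A, i1, i2, t, hs, H⟩ := hS f₀ hf₀ _ hG0
      let _ := Fintype.ofFinite A
      obtain ⟨J, i3, M, hM⟩ := exists_fd_off hs H h hGm b hq
      exact ⟨A, inferInstance, i1, J, i3, M, hM⟩
    rcases Bool.eq_false_or_eq_true b with rfl | rfl
    · obtain ⟨q, hq⟩ := h3 rfl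
      obtain ⟨A, i1, i2, J, i3, M, hM⟩ := hoff (q₀ := q) (by
        rw [hq]
        show q ^ p - q - q ^ p + q = 0
        ring)
      exact ⟨A, i1, i2, J, i3, 2, false, by rw [h2]; rfl, fun _ h => absurd h (by decide), M, hM⟩
    · by_cases h4 : ∃ q, f = q ^ p
      · obtain ⟨q, hq⟩ := id h4
        obtain ⟨A, i1, i2, J, i3, M, hM⟩ := hoff (q₀ := q) (by
          rw [hq]
          show q ^ p - q ^ p + 0 = 0
          ring)
        exact ⟨A, i1, i2, J, i3, 2, false, by rw [h2]; rfl, fun _ _ => h4, M, hM⟩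
      · obtain ⟨s, A, i1, i2, t, hs, H⟩ := hS f (fun a ha => h4 ⟨a, ha.symm⟩) _ hG0
        let _ := Fintype.ofFinite A
        obtain ⟨J, i3, M, hM⟩ := exists_fd_on hs H h hGm
        exact ⟨A, inferInstance, i1, J, i3, 2, true, by rw [h2]; rfl,
          fun h => absurd h (by decide), M, hM⟩


/-- The factors. -/
def Fac (p : ℕ) {k K : Type} [Field k] [Field K] [Algebra k K] (b : Bool)
    (F : IntermediateField k K) (f : F) : Prop :=
  (F.FG ∧ Algebra.trdeg k F = 1) ∨
      (SS p F ∧ Algebra.trdeg k F = 2 ∧ (b = true → ∃ q : F, f = q ^ p - q))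

/-- **Models of covers of products of curves and surfaces.** -/
theorem hasCharts_aux (p : ℕ) [Fact p.Prime] (k : Type) [Field k] [Finite k] [CharP k p]
    (K : Type) [Field K] [Algebra k K] (n r : ℕ) (b : Bool)
    (F : Fin n → IntermediateField k K) (f : ∀ i, F i)
    (hF : ∀ i, Fac p b (F i) (f i))
    (htr : Algebra.trdeg k K = ∑ i, Algebra.trdeg k (F i))
    (hb : b = false → ∃ i, ∀ q : F i, f i ≠ q ^ p)
    (h : ∀ i, Fin r → F i) (z : K) (w : Fin r → K) (N : Fin r → ℕ)
    (hz : z ^ p - cond b z 0 = ∑ i, (f i : K))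
    (hh : ∀ i c, h i c ≠ 0) (hN : ∀ c, ¬ p ∣ N c)
    (hw : ∀ c, w c ^ N c = ∏ i, (h i c : K))
    (hwk : ∀ R : Subring K, (∀ c, w c ∈ R) → ∀ a : k, algebraMap k K a ∈ R)
    (hgen : (⨆ i, F i) ⊔ IntermediateField.adjoin k (insert z (Set.range w)) = ⊤) :
    HasCharts K := by
  classical
  let _ : Algebra (ZMod p) k := ZMod.algebra k p
  have hcF : ∀ i, CharP (F i) p := fun i =>
    charP_of_injective_algebraMap (algebraMap k (F i)).injective p
  have hcK : CharP K p := charP_of_injective_algebraMap (algebraMap k K).injective p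
  let i0 : ∀ i, Algebra (ZMod p) (F i) := fun i => ZMod.algebra (F i) p
  have hst : ∀ i, IsScalarTower (ZMod p) k (F i) := fun i =>
    IsScalarTower.of_algebraMap_eq' (Subsingleton.elim _ _)
  choose A i1 i2 J i3 d on hd hon M₀ hM₀ using fun i =>
    exists_fd (F i) b (f i) (h i) (hh i) (hF i)
  let _ : Algebra (ZMod p) K := ZMod.algebra K p
  have hstK : ∀ i, @IsScalarTower (ZMod p) (F i) K (i0 i).toSMul _ _ := fun i =>
    IsScalarTower.of_algebraMap_eq' (Subsingleton.elim _ _)
  have hstk : IsScalarTower (ZMod p) k K :=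
    IsScalarTower.of_algebraMap_eq' (Subsingleton.elim _ _)
  set M := Finset.univ.sup M₀ with hM
  have hfd : ∀ i, Nonempty (FD p b (on i) (F i) (A i) (J i) (d i) r M (f i) (h i)) := fun i =>
    hM₀ i M (Finset.le_sup (Finset.mem_univ i))
  have hw0 : ∀ c, w c ≠ 0 := by
    intro c hc
    have h1 := hw c
    have h2 : ∏ i, (h i c : K) ≠ 0 := Finset.prod_ne_zero_iff.mpr fun i _ h3 =>
      hh i c (Subtype.ext h3)
    have h3 : N c ≠ 0 := fun h4 => hN c (by rw [h4]; exact dvd_zero p)
    rw [hc, zero_pow h3] at h1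
    exact h2 h1.symm
  let G : GD p b K (Fin n) (fun i => F i) A J d on r M :=
    { f := f
      h := h
      fd := fun i => (hfd i).some
      z := z
      AS := hz
      w := w
      w0 := hw0
      Nw := N
      Nw0 := hN
      KM := hw
      hex := by
        rcases Bool.eq_false_or_eq_true b with hb' | hb'
        · exact ⟨none, hb'⟩
        · obtain ⟨i, hi⟩ := hb hb'
          refine ⟨some i, ?_⟩
          show (b || on i) = true
          rcases Bool.eq_false_or_eq_true (on i) with h1 | h1
          · rw [h1, Bool.or_true]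
          · obtain ⟨q, hq⟩ := hon i h1 hb'
            exact absurd hq (hi q)
      gen := by
        intro R hinv hFR hzR hwR
        let R' : IntermediateField k K :=
          { carrier := R
            mul_mem' := fun ha hb => R.mul_mem ha hb
            one_mem' := R.one_mem
            add_mem' := fun ha hb => R.add_mem ha hb
            zero_mem' := R.zero_mem
            algebraMap_mem' := hwk R hwR
            inv_mem' := by
              intro x hx
              by_cases hx0 : x = 0
              · rw [hx0, inv_zero]; exact R.zero_mem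
              · exact hinv x hx hx0 }
        have h1 : (⊤ : IntermediateField k K) ≤ R' := by
          rw [← hgen]
          refine sup_le (iSup_le fun i w hw => hFR i ⟨w, hw⟩) ?_
          rw [IntermediateField.adjoin_le_iff]
          rintro _ (rfl | ⟨a, rfl⟩)
          · exact hzR
          · exact hwR a
        rw [eq_top_iff]
        intro x _
        exact h1 (show x ∈ (⊤ : IntermediateField k K) from trivial) }
  refine G.hasCharts ?_
  rw [trdeg_zmod' p k K, htr]
  push_cast
  rw [Finset.sum_congr rfl fun i _ => hd i]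

/-- The constants are generated by one more root. -/
theorem hasCharts_aux' (p : ℕ) [Fact p.Prime] (k : Type) [Field k] [Finite k] [CharP k p]
    (K : Type) [Field K] [Algebra k K] (n r : ℕ) (b : Bool)
    (F : Fin n → IntermediateField k K) (f : ∀ i, F i)
    (hF : ∀ i, Fac p b (F i) (f i))
    (htr : Algebra.trdeg k K = ∑ i, Algebra.trdeg k (F i))
    (hb : b = false → ∃ i, ∀ q : F i, f i ≠ q ^ p)
    (h : ∀ i, Fin r → F i) (z : K) (w : Fin r → K) (N : Fin r → ℕ)
    (hz : z ^ p - cond b z 0 = ∑ i, (f i : K))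
    (hh : ∀ i c, h i c ≠ 0) (hN : ∀ c, ¬ p ∣ N c)
    (hw : ∀ c, w c ^ N c = ∏ i, (h i c : K))
    (hgen : (⨆ i, F i) ⊔ IntermediateField.adjoin k (insert z (Set.range w)) = ⊤) :
    HasCharts K := by
  obtain ⟨g, m, hg, hm, hga⟩ := exists_gen p k
  refine hasCharts_aux p k K n (r + 1) b F f hF htr hb (fun i => Fin.cons 1 (h i)) z
    (Fin.cons (algebraMap k K g) w) (Fin.cons m N) hz ?_ ?_ ?_ ?_ ?_
  · intro i c
    refine Fin.cases ?_ (fun c => ?_) c
    · exact one_ne_zero
    · exact hh i c
  · intro c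
    refine Fin.cases ?_ (fun c => ?_) c
    · exact hm
    · exact hN c
  · intro c
    refine Fin.cases ?_ (fun c => ?_) c
    · show algebraMap k K g ^ m = ∏ i, ((1 : F i) : K)
      rw [← map_pow, hg, map_one]
      exact (Finset.prod_eq_one fun i _ => rfl).symm
    · exact hw c
  · intro R hR a
    by_cases ha : a = 0
    · rw [ha, map_zero]; exact R.zero_mem
    · obtain ⟨e, rfl⟩ := hga a ha
      rw [map_pow]
      exact R.pow_mem (hR 0) _
  · rw [eq_top_iff, ← hgen]
    refine sup_le_sup_left (IntermediateField.adjoin.mono _ _ _ ?_) _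
    rintro _ (rfl | ⟨a, rfl⟩)
    · exact Or.inl rfl
    · exact Or.inr ⟨a.succ, rfl⟩

/-- **Models of covers of products of curves and surfaces.** -/
theorem hasCharts_surf (p : ℕ) [Fact p.Prime] (k : Type) [Field k] [Finite k] [CharP k p]
    (K : Type) [Field K] [Algebra k K] (n r : ℕ) (b : Bool)
    (F : Fin n → IntermediateField k K) (f : ∀ i, F i)
    (hF : ∀ i, Fac p b (F i) (f i))
    (htr : Algebra.trdeg k K = ∑ i, Algebra.trdeg k (F i))
    (h : ∀ i, Fin r → F i) (z : K) (w : Fin r → K) (N : Fin r → ℕ)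
    (hz : z ^ p - cond b z 0 = ∑ i, (f i : K))
    (hh : ∀ i c, h i c ≠ 0) (hN : ∀ c, ¬ p ∣ N c)
    (hw : ∀ c, w c ^ N c = ∏ i, (h i c : K))
    (hgen : (⨆ i, F i) ⊔ IntermediateField.adjoin k (insert z (Set.range w)) = ⊤) :
    HasCharts K := by
  have hcK : CharP K p := charP_of_injective_algebraMap (algebraMap k K).injective p
  by_cases hb : b = false → ∃ i, ∀ q : F i, f i ≠ q ^ p
  · exact hasCharts_aux' p k K n r b F f hF htr hb h z w N hz hh hN hw hgen
  · push Not at hb
    obtain ⟨rfl, hq⟩ := hb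
    choose q hq using hq
    refine hasCharts_aux' p k K n r true F (fun _ => 0) (fun i => ?_) htr
      (fun h => absurd h (by decide)) h 0 w N ?_ hh hN hw ?_
    · rcases hF i with h1 | ⟨h1, h2, -⟩
      · exact Or.inl h1
      · exact Or.inr ⟨h1, h2, fun _ => ⟨0, by
          rw [zero_pow (Fact.out : p.Prime).ne_zero, sub_zero]⟩⟩
    · show (0 : K) ^ p - 0 = ∑ i, ((0 : F i) : K)
      rw [zero_pow (Fact.out : p.Prime).ne_zero, sub_zero]
      exact (Finset.sum_eq_zero fun i _ => rfl).symm
    · rw [eq_top_iff, ← hgen]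
      refine sup_le le_sup_left ?_
      rw [IntermediateField.adjoin_le_iff]
      have h1 : z = ∑ i, (q i : K) := by
        have h2 : z ^ p - 0 = ∑ i, (f i : K) := hz
        have h3 : (z - ∑ i, (q i : K)) ^ p = 0 := by
          rw [sub_pow_char, sum_pow_char, ← sub_zero (z ^ p), h2, sub_eq_zero]
          refine Finset.sum_congr rfl fun i _ => ?_
          rw [hq i]
          rfl
        exact sub_eq_zero.mp (pow_eq_zero_iff (Fact.out : p.Prime).ne_zero |>.mp h3)
      rintro _ (rfl | ⟨a, rfl⟩)
      · rw [h1]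
        exact sum_mem fun i _ => (le_sup_left : _ ≤ _ ⊔ IntermediateField.adjoin k _)
          ((le_iSup F i) (q i).2)
      · exact (le_sup_right : IntermediateField.adjoin k _ ≤ _)
          (IntermediateField.subset_adjoin _ _ (Or.inr ⟨a, rfl⟩))

end Pool.Agent.H96.T
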