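import Pool.Agent.H96.T.Reg
import Pool.Agent.H96.S.Tra3

/-!
# Monomials in the colours
-/

set_option autoImplicit false
set_option linter.unusedSectionVars false

namespace Pool.Agent.H96.T

open Pool.Agent.H96.S Pool.Agent.H96.VL
open scoped Pointwise

section Un

variable {F : Type} [Field F] {R R' : Subring F} {a b c d : F}

theorem un_pow (h : Un R a b) (n : ℕ) : Un R (a ^ n) (b ^ n) := by
  induction n with
  | zero => rw [pow_zero, pow_zero]; exact Un.refl one_ne_zero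
  | succ n ih => rw [pow_succ, pow_succ]; exact ih.mul h

theorem un_zpow (h : Un R a b) (n : ℤ) : Un R (a ^ n) (b ^ n) := by
  obtain ⟨m, rfl | rfl⟩ := n.eq_nat_or_neg
  · rw [zpow_natCast, zpow_natCast]; exact un_pow h m
  · rw [zpow_neg, zpow_neg, zpow_natCast, zpow_natCast]; exact (un_pow h m).inv

theorem un_iff : Un R a b ↔ b ≠ 0 ∧ ∃ c, IsU R c ∧ a = b * c := by
  constructor
  · intro h
    have hb0 := h.b0
    refine ⟨hb0, a / b, ⟨div_ne_zero h.a0 hb0, h.ab, by rw [inv_div]; exact h.ba⟩, ?_⟩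
    rw [mul_div_cancel₀ _ hb0]
  · rintro ⟨hb0, c, hc, rfl⟩
    refine ⟨mul_ne_zero hb0 hc.1, hb0, ?_, ?_⟩
    · rw [mul_div_cancel_left₀ _ hb0]; exact hc.2.1
    · rw [div_mul_cancel_left₀ hb0]; exact hc.2.2

theorem un_of_isU (ha : a ≠ 0) (hc : IsU R c) : Un R (a * c) a := un_iff.mpr ⟨ha, c, hc, rfl⟩

end Un

section CM

variable {F : Type} [Field F] {A : Type} {R R' : Subring F} {T T' : A → F} {z w x y : F}
  {cx cy : Option A}

/-- Monomials in the colours, up to units. -/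
def CM (R : Subring F) (T : A → F) (z : F) : Prop :=
  ∃ l : List (A × ℤ), Un R z (l.map fun q => T q.1 ^ q.2).prod

theorem CM.ne (h : CM R T z) : z ≠ 0 := by
  obtain ⟨l, h⟩ := h
  exact h.a0

theorem CM.mul (h : CM R T z) (h' : CM R T w) : CM R T (z * w) := by
  obtain ⟨l, h⟩ := h
  obtain ⟨l', h'⟩ := h'
  refine ⟨l ++ l', ?_⟩
  rw [List.map_append, List.prod_append]
  exact h.mul h'

theorem CM.of_un (h : Un R z w) (hw : CM R T w) : CM R T z := by
  obtain ⟨l, h'⟩ := hw
  exact ⟨l, h.trans h'⟩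

theorem CM.one : CM R T 1 := ⟨[], by rw [List.map_nil, List.prod_nil]; exact Un.refl one_ne_zero⟩

theorem CM.of_isU (h : IsU R z) : CM R T z :=
  CM.of_un (Un.of_unit h.2.1 h.2.2 h.1) CM.one

theorem CM.zpow {a : A} (ha : T a ≠ 0) (n : ℤ) : CM R T (T a ^ n) := by
  refine ⟨[(a, n)], ?_⟩
  rw [List.map_cons, List.map_nil, List.prod_cons, List.prod_nil, mul_one]
  exact Un.refl (zpow_ne_zero _ ha)

theorem CM.inv (h : CM R T z) : CM R T z⁻¹ := by
  obtain ⟨l, h⟩ := h
  refine ⟨l.map fun q => (q.1, -q.2), ?_⟩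
  have h1 : ∀ l : List (A × ℤ), ((l.map fun q => (q.1, -q.2)).map fun q => T q.1 ^ q.2).prod =
      ((l.map fun q => T q.1 ^ q.2).prod)⁻¹ := by
    intro l
    induction l with
    | nil => simp
    | cons a l ih =>
      rw [List.map_cons, List.map_cons, List.prod_cons, List.map_cons, List.prod_cons, mul_inv, ih,
        zpow_neg]
  rw [h1]
  exact h.inv

theorem CM.mono (h : CM R T z) (hR : R ≤ R') (hT : ∀ a, Un R' (T a) (T' a)) : CM R' T' z := by
  obtain ⟨l, h⟩ := h
  refine ⟨l, (h.mono hR).trans ?_⟩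
  clear h
  induction l with
  | nil => rw [List.map_nil, List.map_nil, List.prod_nil]; exact Un.refl one_ne_zero
  | cons a l ih =>
    rw [List.map_cons, List.prod_cons, List.map_cons, List.prod_cons]
    exact (un_zpow (hT _) _).mul ih

variable [DecidableEq A]

/-- Monomials in the colours are monomials in the coordinates. -/
theorem CM.mn (h : CM R T z) (hx0 : x ≠ 0) (hy0 : y ≠ 0)
    (hc : ∀ a, Un R (T a) (tc cx cy x y a)) : Mn R cx cy x y z := by
  obtain ⟨l, h⟩ := h
  refine Mn.of_un h ?_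
  clear h
  induction l with
  | nil => rw [List.map_nil, List.prod_nil]; exact Mn.one
  | cons a l ih =>
    rw [List.map_cons, List.prod_cons]
    exact Mn.mul hx0 hy0 ((Mn.of_un (hc _) (Mn.tc hx0 hy0 _)).zpow hx0 hy0 _) ih

/-- Monomials in the coordinates are monomials in the colours. -/
theorem mn_cm (h : Mn R cx cy x y z) (hcxy : ∀ a, cx = some a → cy ≠ some a)
    (hc : ∀ a, Un R (T a) (tc cx cy x y a)) : CM R T z := by
  obtain ⟨i, j, hi, hj, c, hcR, hcR', hc0, rfl⟩ := h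
  refine CM.mul (CM.mul ?_ ?_) (CM.of_isU ⟨hc0, hcR, hcR'⟩)
  · cases hcx : cx with
    | none => rw [hi hcx, zpow_zero]; exact CM.one
    | some a =>
      have h1 : tc cx cy x y a = x := by rw [tc, if_pos hcx, if_neg (hcxy a hcx), mul_one]
      have h2 := hc a
      rw [h1] at h2
      exact CM.of_un (un_zpow h2.symm i) (CM.zpow h2.a0 i)
  · cases hcy : cy with
    | none => rw [hj hcy, zpow_zero]; exact CM.one
    | some a =>
      have h1 : tc cx cy x y a = y := by
        rw [tc, if_pos hcy, if_neg (fun h => hcxy a h hcy), one_mul]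
      have h2 := hc a
      rw [h1] at h2
      exact CM.of_un (un_zpow h2.symm j) (CM.zpow h2.a0 j)

end CM

section Div

variable {p : ℕ} [hp : Fact p.Prime] {F : Type} [Field F] [CharP F p] {W : ValuationSubring F}
  {B R : Subring F} {x y : F} {Dx Dy : Derivation ℤ F F}

theorem prime_pow (h : Lr p W R x y Dx Dy) {a : F} (ha : a ∈ R) {n : ℕ}
    (h1 : Mul R x (a ^ n)) : Mul R x a := by
  induction n with
  | zero =>
    rw [pow_zero] at h1
    exact absurd (by rw [pow_zero]; exact h1) (h.not_x 0)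
  | succ n ih =>
    rw [pow_succ] at h1
    rcases h.prime (R.pow_mem ha n) ha h1 with h2 | h2
    · exact ih h2
    · exact h2

theorem prime_mon (h : Lr p W R x y Dx Dy) {a u : F} (ha : a ∈ R) (hu : IsU R u) {n n' : ℕ}
    (h1 : Mul R x (a ^ n * y ^ n' * u)) : Mul R x a := by
  have h2 := h1.smul hu.2.2
  have h3 : u⁻¹ * (a ^ n * y ^ n' * u) = a ^ n * y ^ n' := by
    have := hu.1
    field_simp
  rw [h3] at h2
  rcases h.prime (R.pow_mem ha n) (R.pow_mem h.ec.hy n') h2 with h4 | h4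
  · exact prime_pow h ha h4
  · exact absurd h4 (h.not_x n')

/-- **Divisibility by the prime element `x`.** -/
theorem lr_div (h : Lr p W R x y Dx Dy) {x₁ u : F} (hx₁ : x₁ ∈ R) (hx₁0 : x₁ ≠ 0) (hu : IsU R u)
    {m m₁ l : ℤ} (hm : m ≠ 0) (h1 : x ^ m = x₁ ^ m₁ * y ^ l * u) : Mul R x x₁ := by
  have hx0 := h.ec.x0
  have hy0 := h.ec.y0
  have hu0 := hu.1
  have e : ∀ (w : F), w ≠ 0 → ∀ i : ℤ, w ^ i * w ^ (-i).toNat = w ^ i.toNat := by
    intro w hw i
    rw [← zpow_natCast, ← zpow_natCast, ← zpow_add₀ hw]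
    congr 1
    omega
  have h2 : x ^ m.toNat * (x₁ ^ (-m₁).toNat * y ^ (-l).toNat) =
      x ^ (-m).toNat * (x₁ ^ m₁.toNat * y ^ l.toNat * u) := by
    rw [← e x hx0 m, ← e x₁ hx₁0 m₁, ← e y hy0 l, h1]
    ring
  rcases lt_or_gt_of_ne hm with h3 | h3
  · -- `m < 0`
    have h4 : m.toNat = 0 := Int.toNat_of_nonpos h3.le
    obtain ⟨n, hn⟩ : ∃ n, (-m).toNat = n + 1 := ⟨(-m).toNat - 1, by omega⟩
    rw [h4, hn, pow_zero, one_mul] at h2
    refine prime_mon h hx₁ IsU.one (n := (-m₁).toNat) (n' := (-l).toNat) ?_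
    rw [mul_one, h2]
    refine ⟨x ^ n * (x₁ ^ m₁.toNat * y ^ l.toNat * u), R.mul_mem (R.pow_mem h.ec.hx _) (R.mul_mem
      (R.mul_mem (R.pow_mem hx₁ _) (R.pow_mem h.ec.hy _)) hu.2.1), ?_⟩
    rw [pow_succ]; ring
  · -- `m > 0`
    have h4 : (-m).toNat = 0 := Int.toNat_of_nonpos (by omega)
    obtain ⟨n, hn⟩ : ∃ n, m.toNat = n + 1 := ⟨m.toNat - 1, by omega⟩
    rw [h4, hn, pow_zero, one_mul] at h2
    refine prime_mon h hx₁ hu (n := m₁.toNat) (n' := l.toNat) ?_
    rw [← h2]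
    refine ⟨x ^ n * (x₁ ^ (-m₁).toNat * y ^ (-l).toNat), R.mul_mem (R.pow_mem h.ec.hx _) (R.mul_mem
      (R.pow_mem hx₁ _) (R.pow_mem h.ec.hy _)), ?_⟩
    rw [pow_succ]; ring

/-- A coordinate which is a monomial in the other coordinate at a valuation is a unit there. -/
theorem not_mon_nat (hec : EC p B x y Dx Dy) (hB : Fg B) (hW : Vle W B) (hx : W.valuation x < 1)
    {m n : ℕ} {c : F} (hc : IsU (vl W B) c) (hm : m ≠ 0) (h1 : x ^ m = y ^ n * c) : False := by
  have hcv : W.valuation c = 1 := by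
    refine le_antisymm ((vlocal_vl hW).le _ hc.2.1) ?_
    have h2 := (vlocal_vl hW).le _ hc.2.2
    rw [map_inv₀] at h2
    have h3 : 0 < W.valuation c := by rw [Valuation.pos_iff]; exact hc.1
    exact (inv_le_one₀ h3).mp h2
  have hxm : W.valuation x ^ m < 1 := pow_lt_one₀ zero_le hx hm
  have h2 : W.valuation y ^ n < 1 := by
    have h3 := congrArg W.valuation h1
    rw [map_pow, map_mul, map_pow, hcv, mul_one] at h3
    rw [← h3]; exact hxm
  have hy : W.valuation y < 1 := by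
    refine lt_of_le_of_ne (hW y hec.hy) fun h3 => ?_
    rw [h3, one_pow] at h2
    exact lt_irrefl _ h2
  have hn : n ≠ 0 := by
    rintro rfl
    rw [pow_zero] at h2
    exact lt_irrefl _ h2
  obtain ⟨W', hW', hclo, hsp⟩ := exists_clo (p := p) hB hW
  have hLr := (Lr.of hec hB hW' hclo (hsp _ hec.hx hx) (hsp _ hec.hy hy)).swap
  obtain ⟨a, ha, b, hb, hb1, rfl⟩ := mem_vl.mp hc.2.1
  have hb0 : b ≠ 0 := ne_of_one hb1
  have h3 : Mul (vl W' B) y (x ^ m * b) := by
    obtain ⟨n', hn'⟩ := Nat.exists_eq_succ_of_ne_zero hn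
    refine ⟨y ^ n' * a, Subring.mul_mem _ (Subring.pow_mem _ (le_vl hec.hy) _) (le_vl ha), ?_⟩
    rw [h1, hn', pow_succ]
    field_simp
  rcases hLr.prime (Subring.pow_mem _ (le_vl hec.hx) _) (le_vl hb) h3 with h4 | ⟨r, hr, h4⟩
  · exact hLr.not_x m h4
  · obtain ⟨e, he, g, hg, hg1, rfl⟩ := mem_vl.mp hr
    have hg1' : W.valuation g = 1 := by
      refine le_antisymm (hW g hg) (not_lt.mp fun h5 => ?_)
      have h6 := hsp g hg h5
      rw [hg1] at h6
      exact lt_irrefl _ h6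
    have h5 : W.valuation b < 1 := by
      rw [h4, map_mul, map_div₀, hg1', div_one]
      exact (mul_le_mul' le_rfl (hW e he)).trans_lt (by rw [mul_one]; exact hy)
    rw [hb1] at h5
    exact lt_irrefl _ h5

theorem not_mon (hec : EC p B x y Dx Dy) (hB : Fg B) (hW : Vle W B) (hx : W.valuation x < 1)
    {m l : ℤ} {c : F} (hc : IsU (vl W B) c) (hm : m ≠ 0) (h1 : x ^ m = y ^ l * c) : False := by
  have hcv : W.valuation c = 1 := by
    refine le_antisymm ((vlocal_vl hW).le _ hc.2.1) ?_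
    have h2 := (vlocal_vl hW).le _ hc.2.2
    rw [map_inv₀] at h2
    have h3 : 0 < W.valuation c := by rw [Valuation.pos_iff]; exact hc.1
    exact (inv_le_one₀ h3).mp h2
  have hx0 := hec.x0
  have hy0 := hec.y0
  have hyv := hW y hec.hy
  have hxv : 0 < W.valuation x := by rw [Valuation.pos_iff]; exact hx0
  have hv : W.valuation x ^ m = W.valuation y ^ l := by
    have h3 := congrArg W.valuation h1
    rwa [map_zpow₀, map_mul, map_zpow₀, hcv, mul_one] at h3
  have hym : ∀ n : ℕ, W.valuation y ^ n ≤ 1 := fun n => pow_le_one' hyv n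
  rcases lt_or_gt_of_ne hm with h3 | h3
  · obtain ⟨n, hn⟩ := Int.eq_ofNat_of_zero_le (neg_nonneg.mpr h3.le)
    have hn0 : n ≠ 0 := by omega
    have hm' : m = -(n : ℤ) := by omega
    have h4 : W.valuation x ^ n < 1 := pow_lt_one₀ zero_le hx hn0
    rcases le_or_gt l 0 with h5 | h5
    · obtain ⟨n', hn'⟩ := Int.eq_ofNat_of_zero_le (neg_nonneg.mpr h5)
      have hl' : l = -(n' : ℤ) := by omega
      refine not_mon_nat hec hB hW hx (m := n) (n := n') hc.inv hn0 ?_
      rw [hm', hl', zpow_neg, zpow_neg, zpow_natCast, zpow_natCast] at h1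
      have h6 := congrArg (·⁻¹) h1
      simp only [inv_inv, mul_inv] at h6
      exact h6
    · obtain ⟨n', rfl⟩ := Int.eq_ofNat_of_zero_le h5.le
      rw [hm', zpow_neg, zpow_natCast, zpow_natCast] at hv
      have h6 := hym n'
      rw [← hv] at h6
      have h7 : 0 < W.valuation x ^ n := pow_pos hxv n
      exact absurd h4 (not_lt.mpr ((inv_le_one₀ h7).mp h6))
  · obtain ⟨n, rfl⟩ := Int.eq_ofNat_of_zero_le h3.le
    have hn0 : n ≠ 0 := by omega
    have h4 : W.valuation x ^ n < 1 := pow_lt_one₀ zero_le hx hn0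
    rcases le_or_gt 0 l with h5 | h5
    · obtain ⟨n', rfl⟩ := Int.eq_ofNat_of_zero_le h5
      refine not_mon_nat hec hB hW hx (m := n) (n := n') hc hn0 ?_
      rwa [zpow_natCast, zpow_natCast] at h1
    · obtain ⟨n', hn'⟩ := Int.eq_ofNat_of_zero_le (neg_nonneg.mpr h5.le)
      have hl' : l = -(n' : ℤ) := by omega
      rw [hl', zpow_neg, zpow_natCast, zpow_natCast] at hv
      have h6 := hym n'
      have h7 : 0 < W.valuation y ^ n' := pow_pos (by rw [Valuation.pos_iff]; exact hy0) n'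
      rw [hv] at h4
      exact absurd ((inv_lt_one₀ h7).mp h4) (not_lt.mpr h6)

end Div

end Pool.Agent.H96.T
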