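import Pool.Agent.H96.T.Fr

/-!
# Comparison of the members of the family
-/

set_option autoImplicit false
set_option linter.unusedSectionVars false

namespace Pool.Agent.H96.T

open Pool.Agent.H96.S Pool.Agent.H96.VL
open scoped Pointwise

section Loc

variable {p : ℕ} [hp : Fact p.Prime] {F : Type} [Field F] [CharP F p] {s : Finset F}
  {A A' : Type} [DecidableEq A] [DecidableEq A'] {t : A → ValuationSubring F → F}
  {W W' : ValuationSubring F} {ε h₀ : F} {G : Finset F} {P : Finset (F × F)} {x y : F}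
  {cx cy : Option A'}

/-- The coloured coordinates of a chart are monomials. -/
theorem cx_mn (C : Chart p s t ε h₀ G P) (hW' : Vle W' C.B)
    (hm : ∀ a, Mn (Lc s W') cx cy x y (t a W')) {a : A} (ha : C.cx = some a) :
    Mn (Lc s W') cx cy x y C.x := by
  have h1 := (C.col a W' hW').symm
  have h2 : tc C.cx C.cy C.x C.y a = C.x := by
    rw [tc, if_pos ha, if_neg (C.cxy a ha), mul_one]
  rw [h2] at h1
  exact Mn.of_un h1 (hm a)

theorem cy_mn (C : Chart p s t ε h₀ G P) (hW' : Vle W' C.B)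
    (hm : ∀ a, Mn (Lc s W') cx cy x y (t a W')) {a : A} (ha : C.cy = some a) :
    Mn (Lc s W') cx cy x y C.y := by
  have h1 := (C.col a W' hW').symm
  have h2 : tc C.cx C.cy C.x C.y a = C.y := by
    rw [tc, if_pos ha, if_neg (fun h => C.cxy a h ha), one_mul]
  rw [h2] at h1
  exact Mn.of_un h1 (hm a)

theorem N_mn (C : Chart p s t ε h₀ G P) (hW' : Vle W' C.B) (hx0 : x ≠ 0) (hy0 : y ≠ 0)
    (hm : ∀ a, Mn (Lc s W') cx cy x y (t a W')) : Mn (Lc s W') cx cy x y C.N := by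
  refine Mn.change hx0 hy0 (C.lc W' hW') (fun a ha => cx_mn C hW' hm ha)
    (fun a ha => cy_mn C hW' hm ha) (B := C.B) ⟨C.al, C.be, C.al0, C.be0, 1, C.B.one_mem, ?_,
    one_ne_zero, by rw [mul_one]; rfl⟩
  rw [inv_one]; exact C.B.one_mem

end Loc

section Cmp

variable {p : ℕ} [hp : Fact p.Prime] {k F : Type} [Field k] [Field F] [Algebra k F] [CharP F p]
  {s : Finset F} {A A' : Type} [DecidableEq A] [DecidableEq A'] {t : A → ValuationSubring F → F}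
  {W W' : ValuationSubring F} {f : F} {Z : Finset F} {x y z : F} {Dx Dy : Derivation ℤ F F}
  {cx cy : Option A'}

/-- The strict transform. -/
noncomputable def tau (C : FC p s t 1 (Fy p k f Z)) : F := C.i.f / C.C.N

theorem tau_mem (C : FC p s t 1 (Fy p k f Z)) : tau C ∈ C.C.B := by
  have h1 := C.C.hu
  rw [one_mul] at h1
  exact h1

theorem f_ne (C : FC p s t 1 (Fy p k f Z)) : C.i.f ≠ 0 := by
  obtain ⟨u, v, Du, Dv, n, h⟩ := C.hi
  exact h.f0

theorem tau_ne (C : FC p s t 1 (Fy p k f Z)) : tau C ≠ 0 := div_ne_zero (f_ne C) C.C.N0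

/-- The functions are monomials in a frame. -/
theorem z_mn (C : FC p s t 1 (Fy p k f Z)) (hW' : Vle W' C.C.B)
    (hLr : Lr p W' (Lc s W') x y Dx Dy) (hm : ∀ a, Mn (Lc s W') cx cy x y (t a W'))
    (hτ : Mn (Lc s W') cx cy x y (tau C)) (hz : z ∈ Z) (hz0 : z ≠ 0) :
    Mn (Lc s W') cx cy x y z := by
  obtain ⟨u, v, Du, Dv, n, h⟩ := C.hi
  have hx0 := hLr.ec.x0
  have hy0 := hLr.ec.y0
  have hxR := hLr.ec.hx
  have hyR := hLr.ec.hy
  have hle := C.C.lc W' hW'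
  have hh : Mn (Lc s W') cx cy x y C.i.f := by
    have h1 : C.i.f = C.C.N * tau C := by rw [tau, mul_div_cancel₀ _ C.C.N0]
    rw [h1]
    exact (N_mn C.C hW' hx0 hy0 hm).mul hx0 hy0 hτ
  obtain ⟨h1, h2⟩ := h.hZ z hz hz0
  have h3 := hh.pow hx0 hy0 n
  have h4 := h3.ne hx0 hy0
  refine hLr.mn_of hz0 ?_ ?_
  · have h5 : z = z * C.i.f ^ n * (C.i.f ^ n)⁻¹ := by rw [mul_inv_cancel_right₀ h4]
    rw [h5]
    exact (Pb.of_mem (hle (C.inc _ h1))).mul (h3.inv.pb hxR hyR hx0 hy0)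
  · have h5 : z⁻¹ = z⁻¹ * C.i.f ^ n * (C.i.f ^ n)⁻¹ := by rw [mul_inv_cancel_right₀ h4]
    rw [h5]
    exact (Pb.of_mem (hle (C.inc _ h2))).mul (h3.inv.pb hxR hyR hx0 hy0)

/-- Powers of coloured coordinates. -/
theorem pow_cm {R : Subring F} {T : A → F} {o : Option (Option A)} {i : ℤ} (h0 : o = none → i = 0)
    (h1 : o ≠ some none) (h2 : ∀ a, o = some (some a) → Un R (T a) x) : CM R T (x ^ i) := by
  rcases o with _ | _ | a
  · rw [h0 rfl, zpow_zero]; exact CM.one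
  · exact absurd rfl h1
  · have h3 := h2 a rfl
    exact CM.of_un (un_zpow h3.symm i) (CM.zpow h3.a0 i)

/-- The frame in which the strict transform is a coordinate. -/
structure Tf (p : ℕ) {F : Type} [Field F] {A : Type} [DecidableEq A] (W' : ValuationSubring F)
    (R : Subring F) (T : A → F) (τ z : F) (x y : F) (Dx Dy : Derivation ℤ F F) (cy : Option A)
    (m : ℤ) (κ : F) : Prop where
  lr : Lr p W' R x y Dx Dy
  un : Un R τ x
  col : ∀ a, Un R (T a) (tc none cy x y a)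
  m0 : m ≠ 0
  cm : CM R T κ
  eq : z = τ ^ m * κ

theorem exists_tf0 {R : Subring F} {T : A → F} {τ : F} {cx cy : Option (Option A)}
    (hLr : Lr p W' R x y Dx Dy) (hcxy : ∀ a, cx = some a → cy ≠ some a)
    (hcol : ∀ a, Un R (T a) (tc cx cy x y (some a))) (hτ : Un R τ (tc cx cy x y none))
    (hz : Mn R cx cy x y z) (hcm : ¬ CM R T z) (hc : cx = some none) :
    ∃ cy' m κ, Tf p W' R T τ z x y Dx Dy cy' m κ := by
  subst hc
  have hcy : cy ≠ some none := hcxy none rfl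
  obtain ⟨i, j, hi, hj, c, hcR, hcR', hc0, hzz⟩ := hz
  have e1 : tc (some none) cy x y none = x := by rw [tc, if_pos rfl, if_neg hcy, mul_one]
  have e2 : ∀ a : A, tc (some none) cy x y (some a) = if cy = some (some a) then y else 1 := by
    intro a
    rw [tc, if_neg (by intro h; rw [Option.some_inj] at h; cases h), one_mul]
  rw [e1] at hτ
  have hyc : ∀ a, cy = some (some a) → Un R (T a) y := by
    intro a ha
    have h1 := hcol a
    rwa [e2, if_pos ha] at h1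
  have hx0 := hLr.ec.x0
  have hτ0 := hτ.a0
  have hκ : CM R T ((x / τ) ^ i * y ^ j * c) :=
    CM.mul (CM.mul (CM.of_isU (IsU.zpow ⟨div_ne_zero hx0 hτ0, hτ.ba, by
      rw [inv_div]; exact hτ.ab⟩ i)) (pow_cm hj hcy hyc)) (CM.of_isU ⟨hc0, hcR, hcR'⟩)
  refine ⟨cy.join, i, (x / τ) ^ i * y ^ j * c, hLr, hτ, fun a => ?_, ?_, hκ, ?_⟩
  · have h1 := hcol a
    rw [e2] at h1
    have h2 : tc none cy.join x y a = if cy = some (some a) then y else 1 := by
      rw [tc, if_neg (by intro h; cases h), one_mul]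
      simp only [Option.join_eq_some_iff]
    rw [h2]
    exact h1
  · rintro rfl
    apply hcm
    rw [zpow_zero, one_mul] at hκ
    rw [hzz, zpow_zero, one_mul]
    exact hκ
  · rw [hzz, div_zpow]
    have h3 := zpow_ne_zero i hτ0
    field_simp

theorem exists_tf (hs : ∀ g ∈ s, g ≠ 0) (C : FC p s t 1 (Fy p k f Z)) (hW' : Vle W' C.C.B)
    (hclo : Clo p W' C.C.B) (hg : C.C.Good) (hz : z ∈ Z) (hz0 : z ≠ 0)
    (hcm : ¬ CM (Lc s W') (fun a => t a W') z) :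
    ∃ x y Dx Dy cy m κ, Tf p W' (Lc s W') (fun a => t a W') (tau C) z x y Dx Dy cy m κ := by
  obtain ⟨x, y, Dx, Dy, cx, cy, hLr, hcxy, hcol⟩ := exists_loc hs (f_ne C) C.C hW' hclo hg
  have hx0 := hLr.ec.x0
  have hy0 := hLr.ec.y0
  have hcolN : Un (Lc s W') (tau C) (tc cx cy x y none) := hcol none
  have hcolA : ∀ a, Un (Lc s W') (t a W') (tc cx cy x y (some a)) := fun a => hcol (some a)
  have hzm : Mn (Lc s W') cx cy x y z := z_mn C hW' hLr
    (fun a => Mn.of_un (hcolA a) (Mn.tc hx0 hy0 _)) (Mn.of_un hcolN (Mn.tc hx0 hy0 _)) hz hz0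
  by_cases h1 : cx = some none
  · obtain ⟨cy', m, κ, h⟩ := exists_tf0 hLr hcxy hcolA hcolN hzm hcm h1
    exact ⟨x, y, Dx, Dy, cy', m, κ, h⟩
  by_cases h2 : cy = some none
  · obtain ⟨cy', m, κ, h⟩ := exists_tf0 hLr.swap (fun a ha hb => hcxy a hb ha)
      (fun a => by rw [tc_swap]; exact hcolA a) (by rw [tc_swap]; exact hcolN) hzm.swap hcm h2
    exact ⟨y, x, Dy, Dx, cy', m, κ, h⟩
  exfalso
  apply hcm
  obtain ⟨i, j, hi, hj, c, hcR, hcR', hc0, hzz⟩ := hzm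
  rw [hzz]
  refine CM.mul (CM.mul (pow_cm hi h1 fun a ha => ?_) (pow_cm hj h2 fun a ha => ?_))
    (CM.of_isU ⟨hc0, hcR, hcR'⟩)
  · have h3 := hcolA a
    rwa [tc, if_pos ha, if_neg (hcxy _ ha), mul_one] at h3
  · have h3 := hcolA a
    rwa [tc, if_pos ha, if_neg (fun h => hcxy _ h ha), one_mul] at h3

theorem cmp0 {R : Subring F} {T : A → F} {τ τ₁ κ κ₁ : F} {m m₁ : ℤ} {cy : Option A}
    (h : Tf p W' R T τ z x y Dx Dy cy m κ) (hτ₁ : τ₁ ∈ R) (hτ₁0 : τ₁ ≠ 0) (hκ₁ : CM R T κ₁)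
    (h2 : z = τ₁ ^ m₁ * κ₁) : τ₁ / τ ∈ R := by
  have hx0 := h.lr.ec.x0
  have hy0 := h.lr.ec.y0
  have hτ0 := h.un.a0
  have hκ0 := h.cm.ne
  obtain ⟨i, l, hi, hl, c, hc, hc', hc0, h3⟩ := (hκ₁.mul h.cm.inv).mn hx0 hy0 h.col
  rw [hi rfl, zpow_zero, one_mul] at h3
  have he : IsU R (x / τ) := ⟨div_ne_zero hx0 hτ0, h.un.ba, by rw [inv_div]; exact h.un.ab⟩
  have h4 : x ^ m = τ₁ ^ m₁ * y ^ l * (c * (x / τ) ^ m) := by
    have h5 : τ ^ m * κ = τ₁ ^ m₁ * κ₁ := h.eq.symm.trans h2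
    have h6 : κ₁ = y ^ l * c * κ := by
      rw [← h3, mul_assoc, inv_mul_cancel₀ hκ0, mul_one]
    have h7 : τ ^ m = τ₁ ^ m₁ * (y ^ l * c) := by
      rw [h6] at h5
      apply mul_right_cancel₀ hκ0
      rw [h5]; ring
    rw [div_zpow]
    have h8 := zpow_ne_zero m hτ0
    field_simp
    linear_combination h7
  obtain ⟨r, hr, h5⟩ := lr_div h.lr hτ₁ hτ₁0 (IsU.mul ⟨hc0, hc, hc'⟩ (he.zpow m)) h.m0 h4
  have h6 : τ₁ / τ = r * (x / τ) := by rw [h5]; ring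
  rw [h6]
  exact R.mul_mem hr h.un.ba

/-- Local rings of specializations. -/
theorem Lc_sp (hs : ∀ g ∈ s, g ≠ 0) {ε h₀ : F} {G : Finset F} {P : Finset (F × F)}
    (C : Chart p s t ε h₀ G P) (h : Gz W W' C.B) : Lc s W' ≤ Lc s W := by
  rw [C.Lc_eq hs h.le, C.Lc_eq hs h.le']
  rintro w hw
  obtain ⟨a, ha, b, hb, hb1, rfl⟩ := mem_vl.mp hw
  refine mem_vl.mpr ⟨a, ha, b, hb, le_antisymm (h.le b hb) (not_lt.mp fun h1 => ?_), rfl⟩
  have h2 := h.sp b hb h1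
  rw [hb1] at h2
  exact lt_irrefl _ h2

/-- Colours of specializations. -/
theorem t_sp (hs : ∀ g ∈ s, g ≠ 0) {ε h₀ : F} {G : Finset F} {P : Finset (F × F)}
    (C : Chart p s t ε h₀ G P) (h : Gz W W' C.B) (a : A) : Un (Lc s W) (t a W') (t a W) :=
  ((C.col a W' h.le').mono (Lc_sp hs C h)).trans (C.col a W h.le).symm

/-- **Comparison of the strict transforms.** -/
theorem cmp (hs : ∀ g ∈ s, g ≠ 0) (C C₁ : FC p s t 1 (Fy p k f Z)) (hW : Vle W C.C.B)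
    (hW₁ : Vle W C₁.C.B) (hg : C.C.Good) (hg₁ : C₁.C.Good) (hz : z ∈ Z) (hz0 : z ≠ 0)
    (hcm : ¬ CM (Lc s W) (fun a => t a W) z) : Un (Lc s W) (tau C) (tau C₁) := by
  classical
  obtain ⟨E, hE⟩ := C.C.fg
  obtain ⟨E₁, hE₁⟩ := C₁.C.fg
  set B₂ : Subring F := Subring.closure ((E ∪ E₁ : Finset F) : Set F) with hB₂
  have hle : C.C.B ≤ B₂ := by
    rw [hE]
    apply Subring.closure_mono
    rw [Finset.coe_union]
    exact Set.subset_union_left
  have hle₁ : C₁.C.B ≤ B₂ := by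
    rw [hE₁]
    apply Subring.closure_mono
    rw [Finset.coe_union]
    exact Set.subset_union_right
  have hW₂ : Vle W B₂ := by
    rw [hB₂]
    refine vle_closure.mpr fun e he => ?_
    rw [Finset.mem_coe, Finset.mem_union] at he
    rcases he with he | he
    · exact hW e (by rw [hE]; exact Subring.subset_closure he)
    · exact hW₁ e (by rw [hE₁]; exact Subring.subset_closure he)
  obtain ⟨W', hW', hclo, hsp⟩ := exists_clo (p := p) ⟨_, hB₂⟩ hW₂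
  have hcl : ∀ {B : Subring F}, B ≤ B₂ → Clo p W' B := by
    intro B hB
    obtain ⟨n, hn, h1⟩ := hclo
    exact ⟨n, hn, fun b hb => h1 b (hB hb)⟩
  have hz1 : Gz W W' C.C.B := ⟨hW, hW'.mono hle, fun b hb h => hsp b (hle hb) h⟩
  have hz2 : Gz W W' C₁.C.B := ⟨hW₁, hW'.mono hle₁, fun b hb h => hsp b (hle₁ hb) h⟩
  have hcm' : ¬ CM (Lc s W') (fun a => t a W') z := fun h =>
    hcm (h.mono (Lc_sp hs C.C hz1) (fun a => t_sp hs C.C hz1 a))
  obtain ⟨x, y, Dx, Dy, cy, m, κ, h⟩ := exists_tf hs C hz1.le' (hcl hle) hg hz hz0 hcm'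
  obtain ⟨x₁, y₁, Dx₁, Dy₁, cy₁, m₁, κ₁, h₁⟩ := exists_tf hs C₁ hz2.le' (hcl hle₁) hg₁ hz hz0 hcm'
  refine (Un.mono ?_ (Lc_sp hs C.C hz1))
  exact ⟨tau_ne C, tau_ne C₁,
    cmp0 h₁ (C.C.lc W' hz1.le' (tau_mem C)) (tau_ne C) h.cm h.eq,
    cmp0 h (C₁.C.lc W' hz2.le' (tau_mem C₁)) (tau_ne C₁) h₁.cm h₁.eq⟩

/-- **The strict transform is a unit if the functions are monomials in the colours.** -/
theorem tau_unit (hs : ∀ g ∈ s, g ≠ 0) {ε h₀ : F} {G : Finset F} {P : Finset (F × F)}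
    (C : Chart p s t ε h₀ G P) {B' : Subring F} (hle : C.B ≤ B') (hfg : Fg B')
    (hlc : ∀ W, Vle W B' → B' ≤ Lc s W) {τ : F} {D₁ D₂ : Derivation ℤ F F}
    (hec : EC p B' τ C.y D₁ D₂) (hfl : (fl C.cx C.x)⁻¹ ∈ B') {i j m : ℤ} {c : F}
    (hi : C.cx = none → i = 0) (hm : m ≠ 0) (hc : IsU B' c)
    (hz : z = C.x ^ i * C.y ^ j * τ ^ m * c) (hW : Vle W B')
    (hcm : CM (Lc s W) (fun a => t a W) z) : W.valuation τ = 1 := by
  have hWC : Vle W C.B := hW.mono hle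
  have hLB : Lc s W = vl W B' := by
    have hne : ∃ g ∈ s, g ≠ 0 := ⟨C.g, C.hg, hs _ C.hg⟩
    rw [Lc_eq_vl C.hg (hs _ C.hg) hW (C.hAs.trans hle) (hlc W hW)]
  refine le_antisymm (hW τ hec.hx) (not_lt.mp fun hτ => ?_)
  have hx0 := C.ec.x0
  have hy0 := C.ec.y0
  obtain ⟨i', j', hi', hj', c', hcR, hcR', hc0, h1⟩ := hcm.mn hx0 hy0
    (fun a => C.col a W hWC)
  have hle' := hlc W hW
  have hxu : ∀ n : ℤ, (C.cx = none → n = 0) → IsU (Lc s W) (C.x ^ n) := by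
    intro n hn
    cases hcx : C.cx with
    | none => rw [hn hcx, zpow_zero]; exact IsU.one
    | some a =>
      have h2 : fl C.cx C.x = C.x := by rw [hcx]; rfl
      rw [h2] at hfl
      exact IsU.zpow ⟨hx0, C.lc W hWC C.ec.hx, hle' hfl⟩ n
  have hu : IsU (vl W B') (C.x ^ i' * c' * ((C.x ^ i)⁻¹ * c⁻¹)) := by
    rw [← hLB]
    exact ((hxu i' hi').mul ⟨hc0, hcR, hcR'⟩).mul ((hxu i hi).inv.mul (hc.mono hle').inv)
  refine not_mon hec hfg hW hτ hu hm (l := j' - j) ?_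
  rw [zpow_sub₀ hy0]
  have h2 := hz.symm.trans h1
  have h3 := zpow_ne_zero i hx0
  have h4 := zpow_ne_zero j hy0
  have h5 := hc.1
  field_simp
  linear_combination h2

end Cmp

end Pool.Agent.H96.T
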