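import Pool.Agent.H96.S.Fin1
import Mathlib.RingTheory.Etale.Kaehler
import Mathlib.RingTheory.Etale.Field

/-!
# Derivations of function fields of transcendence degree two
-/

set_option autoImplicit false
set_option linter.unusedSectionVars false

namespace Pool.Agent.H96.T

open Pool.Agent.H96.S Pool.Agent.H96.VL
open scoped TensorProduct

/-- Extension of derivations to separable extensions. -/
theorem ext_der {E F : Type} [Field E] [Field F] [Algebra E F] [Algebra.IsSeparable E F]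
    (D : Derivation ℤ E E) : ∃ D' : Derivation ℤ F F, ∀ e, D' (algebraMap E F e) =
      algebraMap E F (D e) := by
  have : Algebra.FormallyEtale E F := Algebra.FormallyEtale.of_isSeparable E F
  let D'' : Derivation ℤ E F := (Algebra.linearMap E F).compDer D
  let φ : F ⊗[E] Ω[E⁄ℤ] →ₗ[F] F := LinearMap.liftBaseChange F D''.liftKaehlerDifferential
  let e := KaehlerDifferential.tensorKaehlerEquivOfFormallyEtale ℤ E F
  refine ⟨(φ.comp e.symm.toLinearMap).compDer (KaehlerDifferential.D ℤ F), fun a => ?_⟩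
  show φ (e.symm (KaehlerDifferential.D ℤ F (algebraMap E F a))) = _
  rw [KaehlerDifferential.tensorKaehlerEquivOfFormallyEtale_symm_D_algebraMap]
  show (1 : F) • D''.liftKaehlerDifferential (KaehlerDifferential.D ℤ E a) = _
  rw [Derivation.liftKaehlerDifferential_comp_D, one_smul]
  rfl

open Algebra in
theorem trdeg_sub {k E F : Type} [Field k] [Field E] [Field F] [Algebra k E] [Algebra k F]
    [Algebra E F] [IsScalarTower k E F] [Algebra.IsAlgebraic E F] :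
    Algebra.trdeg k E = Algebra.trdeg k F := by
  rw [← trdeg_add_eq k E (A := F), trdeg_eq_zero (R := E) (A := F), add_zero]

/-- Two derivations. -/
theorem exists_ders {k F : Type} [Field k] [Finite k] [Field F] [Algebra k F]
    [Algebra.EssFiniteType k F] (p : ℕ) [Fact p.Prime] [CharP k p] [CharP F p]
    (htr : Algebra.trdeg k F = 2) :
    ∃ (x₀ y₀ : F) (D₁ D₂ : Derivation ℤ F F), D₁ x₀ = 1 ∧ D₁ y₀ = 0 ∧ D₂ x₀ = 0 ∧ D₂ y₀ = 1 := by
  classical
  obtain ⟨s, hs, hsep⟩ := exists_isTranscendenceBasis_and_isSeparable_of_perfectField k F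
  have hcard : Cardinal.mk s = 2 := by
    rw [hs.cardinalMk_eq_trdeg, htr]
  have h2 : s.card = 2 := by
    have h1 : ((s.card : ℕ) : Cardinal) = 2 := by
      rw [← hcard, Cardinal.mk_coe_finset]
    exact_mod_cast h1
  obtain ⟨x, y, hxy, rfl⟩ := Finset.card_eq_two.mp h2
  rw [Finset.coe_insert, Finset.coe_singleton] at hsep
  have htrE : Algebra.trdeg k (IntermediateField.adjoin k ({x, y} : Set F)) = 2 := by
    rw [trdeg_sub (F := F), htr]
  obtain ⟨u, v, hG⟩ := gn_of_adjoin htrE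
  have hcE : CharP (IntermediateField.adjoin k ({x, y} : Set F)) p :=
    charP_of_injective_algebraMap (algebraMap k _).injective p
  obtain ⟨Du, Dv, hec, -, -⟩ := hG.exists_ec (p := p)
  obtain ⟨D₁, hD₁⟩ := ext_der (F := F) Du
  obtain ⟨D₂, hD₂⟩ := ext_der (F := F) Dv
  refine ⟨algebraMap _ F u, algebraMap _ F v, D₁, D₂, ?_, ?_, ?_, ?_⟩
  · rw [hD₁, hec.xx, map_one]
  · rw [hD₁, hec.xy, map_zero]
  · rw [hD₂, hec.yx, map_zero]
  · rw [hD₂, hec.yy, map_one]

/-- Derivations are determined by their values on generators over the `p`-th powers. -/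
theorem der_ext {F : Type} [Field F] {p : ℕ} [Fact p.Prime] [CharP F p] {x y : F}
    (hF : ∀ w : F, w ∈ Subring.closure ({c | ∃ a : F, c = a ^ p} ∪ {x, y}))
    {D : Derivation ℤ F F} (hx : D x = 0) (hy : D y = 0) (w : F) : D w = 0 := by
  have h1 := hF w
  induction h1 using Subring.closure_induction with
  | mem c hc =>
    rcases hc with ⟨a, rfl⟩ | rfl | rfl
    · exact der_pow D a
    · exact hx
    · exact hy
  | zero => exact map_zero D
  | one => exact Derivation.map_one_eq_zero D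
  | add a b _ _ ha hb => rw [map_add, ha, hb, add_zero]
  | neg a _ ha => rw [map_neg, ha, neg_zero]
  | mul a b _ _ ha hb => rw [Derivation.leibniz, ha, hb, smul_zero, smul_zero, add_zero]

/-- The dual derivations. -/
theorem exists_dual {F : Type} [Field F] {p : ℕ} [Fact p.Prime] [CharP F p] {x y : F}
    (hF : ∀ w : F, w ∈ Subring.closure ({c | ∃ a : F, c = a ^ p} ∪ {x, y}))
    (hD : ∃ (x₀ y₀ : F) (D₁ D₂ : Derivation ℤ F F), D₁ x₀ = 1 ∧ D₁ y₀ = 0 ∧ D₂ x₀ = 0 ∧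
      D₂ y₀ = 1) :
    ∃ Dx Dy : Derivation ℤ F F, Dx x = 1 ∧ Dx y = 0 ∧ Dy x = 0 ∧ Dy y = 1 := by
  obtain ⟨x₀, y₀, D₁, D₂, h11, h12, h21, h22⟩ := hD
  -- combinations which kill `x` and `y` vanish
  have key : ∀ a b : F, a * D₁ x + b * D₂ x = 0 → a * D₁ y + b * D₂ y = 0 → a = 0 ∧ b = 0 := by
    intro a b h1 h2
    have h3 : ∀ w, (a • D₁ + b • D₂) w = 0 := der_ext hF h1 h2
    have h4 : a * D₁ x₀ + b * D₂ x₀ = 0 := h3 x₀
    have h5 : a * D₁ y₀ + b * D₂ y₀ = 0 := h3 y₀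
    rw [h11, h21, mul_one, mul_zero, add_zero] at h4
    rw [h12, h22, mul_one, mul_zero, zero_add] at h5
    exact ⟨h4, h5⟩
  have hdet : D₁ x * D₂ y - D₂ x * D₁ y ≠ 0 := by
    intro h0
    obtain ⟨h1, h2⟩ := key (D₂ x) (-(D₁ x)) (by ring) (by linear_combination -h0)
    obtain ⟨h3, h4⟩ := key (D₂ y) (-(D₁ y)) (by linear_combination h0) (by ring)
    rw [neg_eq_zero] at h2 h4
    obtain ⟨h5, -⟩ := key 1 0 (by rw [h2]; ring) (by rw [h4]; ring)
    exact one_ne_zero h5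
  set δ := D₁ x * D₂ y - D₂ x * D₁ y with hδ
  refine ⟨(δ⁻¹ * D₂ y) • D₁ - (δ⁻¹ * D₁ y) • D₂, (δ⁻¹ * D₁ x) • D₂ - (δ⁻¹ * D₂ x) • D₁, ?_, ?_,
    ?_, ?_⟩
  · show δ⁻¹ * D₂ y * D₁ x - δ⁻¹ * D₁ y * D₂ x = 1
    have h1 : δ⁻¹ * D₂ y * D₁ x - δ⁻¹ * D₁ y * D₂ x = δ⁻¹ * δ := by rw [hδ]; ring
    rw [h1, inv_mul_cancel₀ hdet]
  · show δ⁻¹ * D₂ y * D₁ y - δ⁻¹ * D₁ y * D₂ y = 0
    ring
  · show δ⁻¹ * D₁ x * D₂ x - δ⁻¹ * D₂ x * D₁ x = 0
    ring
  · show δ⁻¹ * D₁ x * D₂ y - δ⁻¹ * D₂ x * D₁ y = 1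
    have h1 : δ⁻¹ * D₁ x * D₂ y - δ⁻¹ * D₂ x * D₁ y = δ⁻¹ * δ := by rw [hδ]; ring
    rw [h1, inv_mul_cancel₀ hdet]

end Pool.Agent.H96.T
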