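import Pool.Agent.H96.T.Mod

/-!
# The descent for a family of functions
-/

set_option autoImplicit false
set_option linter.unusedSectionVars false

namespace Pool.Agent.H96.T

open Pool.Agent.H96.S Pool.Agent.H96.VL
open scoped Pointwise

/-- The members of a family. -/
structure Mb (F : Type) where
  f : F
  G : Finset F
  P : Finset (F × F)
  E : Finset F

/-- Charts for the members of a family. -/
structure FC (p : ℕ) {F : Type} [Field F] (s : Finset F) {A : Type} [DecidableEq A]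
    (t : A → ValuationSubring F → F) (ε : F) (𝓕 : Mb F → Prop) where
  i : Mb F
  hi : 𝓕 i
  C : Chart p s t ε i.f i.G i.P
  inc : ∀ e ∈ i.E, e ∈ C.B

section Descent

variable {p : ℕ} [hp : Fact p.Prime] {F : Type} [Field F] [CharP F p] [DecidableEq F] {s : Finset F}
  {A : Type} [DecidableEq A] {t : A → ValuationSubring F → F} {ε : F} {𝓕 : Mb F → Prop}
  {W W₀ W₁ : ValuationSubring F} {c : Finset F} {N : ℕ}

/-- Another chart for the same member. -/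
def FC.mk' (C : FC p s t ε 𝓕) {s' : Finset F} {A' : Type} [DecidableEq A']
    {t' : A' → ValuationSubring F → F} (C' : Chart p s' t' ε C.i.f C.i.G C.i.P)
    (h : C.C.B ≤ C'.B) : FC p s' t' ε 𝓕 :=
  ⟨C.i, C.hi, C', fun e he => h (C.inc e he)⟩

/-- The state of the descent. -/
def Hn (p : ℕ) {F : Type} [Field F] (s : Finset F) {A : Type} [DecidableEq A]
    (t : A → ValuationSubring F → F) (ε : F) (𝓕 : Mb F → Prop) (n m : ℕ) : Prop :=
  ∃ l : List (FC p s t ε 𝓕), l.length ≤ m ∧ (∀ C ∈ l, ∃ W₀, C.C.Pd W₀ n) ∧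
    ∀ W, ∃ C : FC p s t ε 𝓕, Vle W C.C.B ∧
      (C.C.Good ∨ (∃ W₀ n', n' < n ∧ C.C.Pd W₀ n') ∨ C ∈ l)

/-- The list of the blowing up. -/
theorem exists_list (hs : ∀ g ∈ s, g ≠ 0) (hcn : Cn s W₀ c N) {x₀ y₀ : F} {cx₀ cy₀ : Option A}
    {n : ℕ} (l : List (FC p s t ε 𝓕)) (hl : ∀ C ∈ l, ∃ W₁, C.C.Pd W₁ n) :
    ∃ l' : List (FC p (s * c) (tb t s W₀ x₀ y₀ cx₀ cy₀) ε 𝓕), l'.length ≤ l.length ∧
      (∀ C ∈ l', ∃ W₁, C.C.Pd W₁ n) ∧ ∀ C ∈ l, ∀ W, Vle W C.C.B → W.valuation C.C.x < 1 →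
        W.valuation C.C.y < 1 → Lc s W ≠ Lc s W₀ → ∃ C' ∈ l', Vle W C'.C.B := by
  induction l with
  | nil => exact ⟨[], le_rfl, fun C hC => absurd hC List.not_mem_nil,
      fun C hC => absurd hC List.not_mem_nil⟩
  | cons C l ih =>
    obtain ⟨l', h1, h2, h3⟩ := ih fun C' hC' => hl C' (List.mem_cons_of_mem _ hC')
    obtain ⟨W₁, hPd⟩ := hl C List.mem_cons_self
    by_cases hne : Lc s W₁ = Lc s W₀
    · refine ⟨l', h1.trans (by simp), h2, fun C' hC' W hW hx hy hWne => ?_⟩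
      rcases List.mem_cons.mp hC' with rfl | hC'
      · exact absurd ((hPd.centred hs hW hx hy).trans hne) hWne
      · exact h3 C' hC' W hW hx hy hWne
    · obtain ⟨C₁, hBB, h4, -, d, hd, hd1, -, -, h5, h6⟩ := C.C.exists_rc (x₀ := x₀) (y₀ := y₀)
        (cx₀ := cx₀) (cy₀ := cy₀) hs hcn hPd.pt.le hne
      refine ⟨C.mk' C₁ hBB :: l', by simpa using h1, fun C' hC' => ?_,
        fun C' hC' W hW hx hy hWne => ?_⟩
      · rcases List.mem_cons.mp hC' with rfl | hC'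
        · exact ⟨W₁, h6 W₁ n hd1 hPd⟩
        · exact h2 C' hC'
      · rcases List.mem_cons.mp hC' with rfl | hC'
        · exact ⟨_, List.mem_cons_self, h5 W hW ((hPd.pt.one_iff hW hx hy hd).mpr hd1)⟩
        · obtain ⟨C₂, h7, h8⟩ := h3 C' hC' W hW hx hy hWne
          exact ⟨C₂, List.mem_cons_of_mem _ h7, h8⟩

/-- The blowing up of one point. -/
theorem Hn.blow (hε : ε = 0 ∨ ε = 1) (hs : ∀ g ∈ s, g ≠ 0) {n m : ℕ} (C₀ : FC p s t ε 𝓕)
    (l : List (FC p s t ε 𝓕)) (hl : l.length ≤ m) (hC₀ : C₀.C.Pd W₀ n) (hng : ¬ C₀.C.Good)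
    (hlP : ∀ C ∈ l, ∃ W₀, C.C.Pd W₀ n)
    (hcov : ∀ W, ∃ C : FC p s t ε 𝓕, Vle W C.C.B ∧
      (C.C.Good ∨ (∃ W₀ n', n' < n ∧ C.C.Pd W₀ n') ∨ C ∈ C₀ :: l)) :
    ∃ c : Finset F, (∀ g ∈ c, g ≠ 0) ∧
      Hn p (s * c) (tb t s W₀ C₀.C.x C₀.C.y C₀.C.cx C₀.C.cy) ε 𝓕 n m := by
  have hclo : Clo p W₀ (Lc s W₀) := by
    rw [C₀.C.Lc_eq hs hC₀.pt.le]
    exact hC₀.pt.clo.vl hC₀.pt.le
  obtain ⟨c', N, hcn'⟩ := exists_cen hs hclo
  have hcn : Cn s W₀ (c'.erase 0) N := Cn.erase hs hcn'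
  refine ⟨c'.erase 0, fun g hg => Finset.ne_of_mem_erase hg, ?_⟩
  obtain ⟨l', h1, h2, h3⟩ := exists_list (x₀ := C₀.C.x) (y₀ := C₀.C.y) (cx₀ := C₀.C.cx)
    (cy₀ := C₀.C.cy) hs hcn l hlP
  refine ⟨l', h1.trans hl, h2, fun W => ?_⟩
  by_cases hW : Lc s W = Lc s W₀
  · obtain ⟨C', W', n', hBB, h4, h5, h6⟩ := C₀.C.at_centre hε hs hcn hC₀ hng hW
    exact ⟨C₀.mk' C' hBB, h5, Or.inr (Or.inl ⟨W', n', h4, h6⟩)⟩
  -- away from the centre
  have hgood : ∀ C : FC p s t ε 𝓕, Vle W C.C.B → C.C.Good →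
      ∃ C' : FC p (s * c'.erase 0) (tb t s W₀ C₀.C.x C₀.C.y C₀.C.cx C₀.C.cy) ε 𝓕,
        Vle W C'.C.B ∧ (C'.C.Good ∨ (∃ W₀ n', n' < n ∧ C'.C.Pd W₀ n') ∨ C' ∈ l') := by
    intro C hCW hC
    obtain ⟨C', hBB, h4, h5, -⟩ := C.C.exists_rc (x₀ := C₀.C.x) (y₀ := C₀.C.y) (cx₀ := C₀.C.cx)
      (cy₀ := C₀.C.cy) hs hcn hCW hW
    exact ⟨C.mk' C' hBB, h4, Or.inl (h5 hC)⟩
  obtain ⟨C, hCW, hC⟩ := hcov W
  rcases hC with hC | ⟨W₁, n', hn', hC⟩ | hC
  · exact hgood C hCW hC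
  · by_cases hxy : W.valuation C.C.x < 1 ∧ W.valuation C.C.y < 1
    · obtain ⟨C', hBB, h4, -, d, hd, hd1, -, -, -, h6⟩ := C.C.exists_rc (x₀ := C₀.C.x)
        (y₀ := C₀.C.y) (cx₀ := C₀.C.cx) (cy₀ := C₀.C.cy) hs hcn hCW hW
      exact ⟨C.mk' C' hBB, h4, Or.inr (Or.inl ⟨W₁, n', hn', h6 W₁ n'
        ((hC.pt.one_iff hCW hxy.1 hxy.2 hd).mp hd1) hC⟩)⟩
    · obtain ⟨C', hBB, h4, h5⟩ := C.C.exists_good_of hs hC hCW hxy
      exact hgood (C.mk' C' hBB) h4 h5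
  · obtain ⟨W₁, hPd⟩ : ∃ W₁, C.C.Pd W₁ n := by
      rcases List.mem_cons.mp hC with rfl | hC
      · exact ⟨W₀, hC₀⟩
      · exact hlP C hC
    by_cases hxy : W.valuation C.C.x < 1 ∧ W.valuation C.C.y < 1
    · rcases List.mem_cons.mp hC with rfl | hC
      · exact absurd (hC₀.centred hs hCW hxy.1 hxy.2) hW
      · obtain ⟨C', h4, h5⟩ := h3 C hC W hCW hxy.1 hxy.2 hW
        exact ⟨C', h5, Or.inr (Or.inr h4)⟩
    · obtain ⟨C', hBB, h4, h5⟩ := C.C.exists_good_of hs hPd hCW hxy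
      exact hgood (C.mk' C' hBB) h4 h5

/-- Reduction of the bound. -/
theorem Hn.compact {n : ℕ} (h : Hn p s t ε 𝓕 (n + 1) 0) : ∃ m, Hn p s t ε 𝓕 n m := by
  classical
  obtain ⟨l, hl, -, hcov⟩ := h
  have hl0 : l = [] := List.length_eq_zero_iff.mp (Nat.le_zero.mp hl)
  subst hl0
  have hfg : ∀ C : FC p s t ε 𝓕, ∃ E : Finset F, C.C.B = Subring.closure E := fun C => C.C.fg
  choose E hE using hfg
  set ι := {C : FC p s t ε 𝓕 // C.C.Good ∨ ∃ W₀ n', n' < n + 1 ∧ C.C.Pd W₀ n'} with hι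
  obtain ⟨T, hT⟩ := qc (fun i : ι => E i.1) (fun W => by
    obtain ⟨C, h1, h2⟩ := hcov W
    have h3 : C.C.Good ∨ ∃ W₀ n', n' < n + 1 ∧ C.C.Pd W₀ n' := by
      rcases h2 with h2 | h2 | h2
      · exact Or.inl h2
      · exact Or.inr h2
      · exact absurd h2 List.not_mem_nil
    refine ⟨⟨C, h3⟩, fun e he => (W.valuation_le_one_iff e).mp (h1 e ?_)⟩
    rw [hE C]
    exact Subring.subset_closure he)
  refine ⟨_, (T.filter fun i => ¬ i.1.C.Good).toList.map Subtype.val, le_rfl, fun C hC => ?_,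
    fun W => ?_⟩
  · rw [List.mem_map] at hC
    obtain ⟨i, hi, rfl⟩ := hC
    rw [Finset.mem_toList, Finset.mem_filter] at hi
    obtain ⟨W₀, n', h1, h2⟩ := i.2.resolve_left hi.2
    exact ⟨W₀, h2.mono (by omega)⟩
  · obtain ⟨i, hi, hW⟩ := hT W
    refine ⟨i.1, ?_, ?_⟩
    · rw [hE i.1]
      exact vle_closure.mpr fun e he => (W.valuation_le_one_iff e).mpr (hW e he)
    · by_cases hg : i.1.C.Good
      · exact Or.inl hg
      · right; right
        rw [List.mem_map]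
        exact ⟨i, by rw [Finset.mem_toList, Finset.mem_filter]; exact ⟨hi, hg⟩, rfl⟩

/-- **The descent.** -/
theorem descent (hε : ε = 0 ∨ ε = 1) (n : ℕ) : ∀ (m : ℕ) (s : Finset F) (A : Type)
    (_ : DecidableEq A) (_ : Finite A) (t : A → ValuationSubring F → F), (∀ g ∈ s, g ≠ 0) →
    Hn p s t ε 𝓕 n m → ∃ (c : Finset F) (A' : Type) (_ : DecidableEq A') (_ : Finite A')
      (t' : A' → ValuationSubring F → F), (∀ g ∈ c, g ≠ 0) ∧
      ∀ W, ∃ C : FC p (s * c) t' ε 𝓕, Vle W C.C.B ∧ C.C.Good := by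
  induction n with
  | zero =>
    intro m s A _ hA t hs h
    obtain ⟨l, hl, hlP, hcov⟩ := h
    have hs1 : s * {1} = s := by
      rw [Finset.mul_singleton]
      simp
    refine ⟨{1}, A, inferInstance, hA, t, fun g hg => ?_, fun W => ?_⟩
    · rw [Finset.mem_singleton.mp hg]; exact one_ne_zero
    · rw [hs1]
      obtain ⟨C, h1, h2⟩ := hcov W
      refine ⟨C, h1, ?_⟩
      rcases h2 with h2 | ⟨W₀, n', h3, -⟩ | h2
      · exact h2
      · omega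
      · obtain ⟨W₀, h3⟩ := hlP C h2
        exfalso
        have h4 := h3.le
        have h5 := h3.idx_ne
        rw [Chart.Φ] at h4
        omega
  | succ n ihn =>
    intro m
    induction m with
    | zero =>
      intro s A _ hA t hs h
      obtain ⟨m, hm⟩ := h.compact
      exact ihn m s A _ hA t hs hm
    | succ m ihm =>
      intro s A _ hA t hs h
      obtain ⟨l, hl, hlP, hcov⟩ := h
      cases l with
      | nil => exact ihm s A _ hA t hs ⟨[], Nat.zero_le _, hlP, hcov⟩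
      | cons C₀ l =>
        have hl' : l.length ≤ m := by simpa using hl
        have hlP' : ∀ C ∈ l, ∃ W₀, C.C.Pd W₀ (n + 1) := fun C hC => hlP C (List.mem_cons_of_mem _ hC)
        by_cases hg : C₀.C.Good
        · refine ihm s A _ hA t hs ⟨l, hl', hlP', fun W => ?_⟩
          obtain ⟨C, h1, h2⟩ := hcov W
          refine ⟨C, h1, ?_⟩
          rcases h2 with h2 | h2 | h2
          · exact Or.inl h2
          · exact Or.inr (Or.inl h2)
          · rcases List.mem_cons.mp h2 with rfl | h2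
            · exact Or.inl hg
            · exact Or.inr (Or.inr h2)
        · obtain ⟨W₀, hC₀⟩ := hlP C₀ List.mem_cons_self
          obtain ⟨c, hc0, hc⟩ := Hn.blow hε hs C₀ l hl' hC₀ hg hlP' hcov
          have hs' : ∀ g ∈ s * c, g ≠ 0 := by
            intro g hg'
            obtain ⟨a, ha, b, hb, rfl⟩ := Finset.mem_mul.mp hg'
            exact mul_ne_zero (hs a ha) (hc0 b hb)
          obtain ⟨c', A', i1, i2, t', h1, h2⟩ := ihm (s * c) (Option A) inferInstance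
            inferInstance _ hs' hc
          refine ⟨c * c', A', i1, i2, t', fun g hg' => ?_, ?_⟩
          · obtain ⟨a, ha, b, hb, rfl⟩ := Finset.mem_mul.mp hg'
            exact mul_ne_zero (hc0 a ha) (h1 b hb)
          · rw [← mul_assoc]
            exact h2

/-- The initial state of the descent. -/
theorem exists_hn (h : ∀ W, ∃ C : FC p s t ε 𝓕, Vle W C.C.B ∧ ∃ W₀ n, C.C.Pd W₀ n) :
    ∃ n, Hn p s t ε 𝓕 n 0 := by
  classical
  have hfg : ∀ C : FC p s t ε 𝓕, ∃ E : Finset F, C.C.B = Subring.closure E := fun C => C.C.fg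
  choose E hE using hfg
  set ι := {C : FC p s t ε 𝓕 // ∃ W₀ n, C.C.Pd W₀ n} with hι
  obtain ⟨T, hT⟩ := qc (fun i : ι => E i.1) (fun W => by
    obtain ⟨C, h1, h2⟩ := h W
    refine ⟨⟨C, h2⟩, fun e he => (W.valuation_le_one_iff e).mp (h1 e ?_)⟩
    rw [hE C]
    exact Subring.subset_closure he)
  have h2 : ∀ i : ι, ∃ n, ∃ W₀, i.1.C.Pd W₀ n := fun i => by
    obtain ⟨W₀, n, h3⟩ := i.2
    exact ⟨n, W₀, h3⟩
  choose ν hν using h2
  refine ⟨T.sup ν + 1, [], le_rfl, fun C hC => absurd hC List.not_mem_nil, fun W => ?_⟩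
  obtain ⟨i, hi, hW⟩ := hT W
  refine ⟨i.1, ?_, ?_⟩
  · rw [hE i.1]
    exact vle_closure.mpr fun e he => (W.valuation_le_one_iff e).mpr (hW e he)
  · obtain ⟨W₀, h3⟩ := hν i
    exact Or.inr (Or.inl ⟨W₀, ν i, Nat.lt_succ_of_le (Finset.le_sup hi), h3⟩)

/-- **The descent, from pointed charts.** -/
theorem descent' (hε : ε = 0 ∨ ε = 1) [Finite A] (hs : ∀ g ∈ s, g ≠ 0)
    (h : ∀ W, ∃ C : FC p s t ε 𝓕, Vle W C.C.B ∧ ∃ W₀ n, C.C.Pd W₀ n) :
    ∃ (c : Finset F) (A' : Type) (_ : DecidableEq A') (_ : Finite A')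
      (t' : A' → ValuationSubring F → F), (∀ g ∈ c, g ≠ 0) ∧
      ∀ W, ∃ C : FC p (s * c) t' ε 𝓕, Vle W C.C.B ∧ C.C.Good := by
  obtain ⟨n, hn⟩ := exists_hn h
  exact descent hε n 0 s A inferInstance inferInstance t hs hn

end Descent

end Pool.Agent.H96.T
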