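import Pool.Agent.H96.T.CM

/-!
# Frames
-/

set_option autoImplicit false
set_option linter.unusedSectionVars false

namespace Pool.Agent.H96.T

open Pool.Agent.H96.S Pool.Agent.H96.VL
open scoped Pointwise

/-- The colours with a new colour. -/
def tN {F A : Type} [Field F] (T : ValuationSubring F → F) (t : A → ValuationSubring F → F) :
    Option A → ValuationSubring F → F
  | none => T
  | some a => t a

section Th

variable {p : ℕ} [hp : Fact p.Prime] {F : Type} [Field F] [CharP F p] {s : Finset F}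
  {A : Type} [DecidableEq A] {t : A → ValuationSubring F → F} {h₀ : F} {G : Finset F}
  {P : Finset (F × F)} {W W' : ValuationSubring F} {T : ValuationSubring F → F}

/-- The case of a unit. -/
theorem fr_unit (C : Chart p s t 1 h₀ G P)
    (hT : FinD W' C.B fun B' => ∀ W, Vle W B' → Un (Lc s W) (T W) 1) :
    Fr p W' C.B s (tN T t) C.x C.y C.Dx C.Dy (C.cx.map some) (C.cy.map some) where
  hx := C.ec.hx
  hy := C.ec.hy
  cxy := by
    intro a ha hb
    cases a with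
    | none => exact map_some_none ha
    | some a => exact C.cxy a (map_some_iff.mp ha) (map_some_iff.mp hb)
  ec := FinD.of fun d hd hd1 => C.ec.adj_inv hd (ne_of_one hd1)
  col := by
    refine hT.mono fun d hd hd1 h1 a W hWd => ?_
    obtain ⟨h2, h3⟩ := (vle_adj_inv hd (ne_of_one hd1)).mp hWd
    cases a with
    | none =>
      rw [tc_map_none]
      exact h1 W hWd
    | some a =>
      rw [tc_map_some]
      exact C.col a W h2

/-- The coordinates in the case of a coordinate. -/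
theorem fr_coord0 (h0 : h₀ ≠ 0) (C : Chart p s t 1 h₀ G P) (hW' : Vle W' C.B)
    (hφ : W'.valuation (h₀ / C.N) < 1)
    (hv : W'.valuation (fl C.cx C.x * C.Dx h₀ / C.N) = 1) :
    ∃ D₁ D₂ : Derivation ℤ F F, FinD W' C.B fun B' => EC p B' (h₀ / C.N) C.y D₁ D₂ ∧
      (fl C.cx C.x)⁻¹ ∈ B' := by
  have hφB : h₀ / C.N ∈ C.B := by
    have h1 := C.hu
    rwa [one_mul] at h1
  set φ := h₀ / C.N with hφd
  have hflB : fl C.cx C.x ∈ C.B := fl_mem C.ec.hx
  have hDB : C.Dx φ ∈ C.B := C.ec.dx _ hφB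
  have h1 : W'.valuation (fl C.cx C.x * C.Dx φ) = 1 := by
    have h2 := C.log_eq h0
    have h3 : fl C.cx C.x * C.Dx φ = fl C.cx C.x * C.Dx h₀ / C.N - C.al * φ := by
      rw [h2]; ring
    have h4 : W'.valuation (C.al * φ) < W'.valuation (fl C.cx C.x * C.Dx h₀ / C.N) := by
      rw [hv, map_mul]
      exact (mul_le_mul' (hW' _ (intCast_mem C.B _)) le_rfl).trans_lt (by rw [one_mul]; exact hφ)
    rw [h3, W'.valuation.map_sub_eq_of_lt_left h4, hv]
  have h2 : W'.valuation (C.Dx φ) = 1 := by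
    refine le_antisymm (hW' _ hDB) (not_lt.mp fun h3 => ?_)
    rw [map_mul] at h1
    have h4 : W'.valuation (fl C.cx C.x) * W'.valuation (C.Dx φ) < 1 :=
      (mul_le_mul' (hW' _ hflB) le_rfl).trans_lt (by rw [one_mul]; exact h3)
    rw [h1] at h4
    exact lt_irrefl _ h4
  have h3 : W'.valuation (fl C.cx C.x) = 1 := by
    rwa [map_mul, h2, mul_one] at h1
  have hD0 : C.Dx φ ≠ 0 := ne_of_one h2
  refine ⟨(C.Dx φ)⁻¹ • C.Dx, C.Dy - (C.Dy φ * (C.Dx φ)⁻¹) • C.Dx, ?_⟩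
  refine ((FinD.mem (inv_mem_vl hDB h2)).and (FinD.mem (inv_mem_vl hflB h3))).mono
    fun d hd hd1 h4 => ⟨?_, h4.2⟩
  exact ((C.ec.adj_inv hd (ne_of_one hd1)).swap.change (le_adj hφB) h4.1 hD0).swap

/-- The case of a coordinate. -/
theorem fr_coord (hs : ∀ g ∈ s, g ≠ 0) (h0 : h₀ ≠ 0) (C : Chart p s t 1 h₀ G P)
    (hW' : Vle W' C.B) (hφ : W'.valuation (h₀ / C.N) < 1)
    (hv : W'.valuation (fl C.cx C.x * C.Dx h₀ / C.N) = 1)
    (hT : FinD W' C.B fun B' => ∀ W, Vle W B' → Un (Lc s W) (T W) (h₀ / C.N)) :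
    ∃ D₁ D₂ : Derivation ℤ F F,
      Fr p W' C.B s (tN T t) (h₀ / C.N) C.y D₁ D₂ (some none) (C.cy.map some) := by
  have hφB : h₀ / C.N ∈ C.B := by
    have h1 := C.hu
    rwa [one_mul] at h1
  obtain ⟨D₁, D₂, hec⟩ := fr_coord0 h0 C hW' hφ hv
  refine ⟨D₁, D₂, hφB, C.ec.hy, ?_, hec.mono fun _ _ _ h => h.1, ?_⟩
  · intro a ha hb
    rw [Option.some_inj] at ha
    rw [← ha] at hb
    exact map_some_none hb
  · refine (hec.and hT).mono fun d hd hd1 h4 a W hWd => ?_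
    obtain ⟨h5, h6⟩ := (vle_adj_inv hd (ne_of_one hd1)).mp hWd
    have hne : ∃ g ∈ s, g ≠ 0 := ⟨C.g, C.hg, hs _ C.hg⟩
    have h7 := C.lc W h5
    have h8 : adj C.B d⁻¹ ≤ Lc s W := adj_le h7 ((lst_Lc hne W).loc.inv d (h7 hd) h6)
    cases a with
    | none =>
      have h9 : tc (some none) (C.cy.map some) (h₀ / C.N) C.y (none : Option A) = h₀ / C.N := by
        rw [tc, if_pos rfl, if_neg map_some_none, mul_one]
      rw [h9]
      exact h4.2 W hWd
    | some a =>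
      have h9 : tc (some none) (C.cy.map some) (h₀ / C.N) C.y (some a) =
          1 * if C.cy = some a then C.y else 1 := by
        rw [tc, if_neg (by intro h; rw [Option.some_inj] at h; cases h)]
        simp only [map_some_iff]
      rw [h9]
      refine (C.col a W h5).trans ?_
      rw [tc]
      refine Un.mul ?_ (Un.refl ?_)
      · by_cases h10 : C.cx = some a
        · rw [if_pos h10]
          have h11 : fl C.cx C.x = C.x := by rw [h10]; rfl
          have h12 := h4.1.2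
          rw [h11] at h12
          exact Un.of_unit (h7 C.ec.hx) (h8 h12) C.ec.x0
        · rw [if_neg h10]
          exact Un.refl one_ne_zero
      · split_ifs
        · exact C.ec.y0
        · exact one_ne_zero

/-- One of the logarithmic derivatives is a unit. -/
theorem good_cases (C : Chart p s t 1 h₀ G P) (hW' : Vle W' C.B) (hg : C.Good)
    (hφ : W'.valuation (h₀ / C.N) < 1) :
    W'.valuation (fl C.cx C.x * C.Dx h₀ / C.N) = 1 ∨
      W'.valuation (fl C.cy C.y * C.Dy h₀ / C.N) = 1 := by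
  obtain ⟨b, hb, c, hc, d, hd, h1⟩ := C.mem_L.mp hg
  by_contra hcon
  push Not at hcon
  have hv := lt_of_le_of_ne (hW' _ C.hv) hcon.1
  have hw := lt_of_le_of_ne (hW' _ C.hw) hcon.2
  have h3 : W'.valuation (1 : F) < 1 := by
    rw [h1]
    refine W'.valuation.map_add_lt (W'.valuation.map_add_lt ?_ ?_) ?_
    · rw [map_mul, one_mul]
      exact (mul_le_mul' le_rfl (hW' _ hb)).trans_lt (by rw [mul_one]; exact hφ)
    · rw [map_mul]
      exact (mul_le_mul' le_rfl (hW' _ hc)).trans_lt (by rw [mul_one]; exact hv)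
    · rw [map_mul]
      exact (mul_le_mul' le_rfl (hW' _ hd)).trans_lt (by rw [mul_one]; exact hw)
  rw [map_one] at h3
  exact lt_irrefl _ h3

/-- **Existence of frames.** -/
theorem exists_frame (hs : ∀ g ∈ s, g ≠ 0) (h0 : h₀ ≠ 0) (C : Chart p s t 1 h₀ G P)
    (hW' : Vle W' C.B) (hclo : Clo p W' C.B) (hg : C.Good)
    (hT : (FinD W' C.B fun B' => ∀ W, Vle W B' → Un (Lc s W) (T W) 1) ∨
      (W'.valuation (h₀ / C.N) < 1 ∧
        FinD W' C.B fun B' => ∀ W, Vle W B' → Un (Lc s W) (T W) (h₀ / C.N))) :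
    ∃ (x y : F) (Dx Dy : Derivation ℤ F F) (cx cy : Option (Option A)),
      Fr p W' C.B s (tN T t) x y Dx Dy cx cy ∧ W'.valuation x < 1 ∧ W'.valuation y < 1 := by
  have hne : ∃ g ∈ s, g ≠ 0 := ⟨C.g, C.hg, hs _ C.hg⟩
  -- recentring of both coordinates
  have key : ∀ (x y : F) (Dx Dy : Derivation ℤ F F) (cx cy : Option (Option A)),
      Fr p W' C.B s (tN T t) x y Dx Dy cx cy →
      ∃ (x y : F) (Dx Dy : Derivation ℤ F F) (cx cy : Option (Option A)),
      Fr p W' C.B s (tN T t) x y Dx Dy cx cy ∧ W'.valuation x < 1 ∧ W'.valuation y < 1 := by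
    intro x y Dx Dy cx cy h
    obtain ⟨x', cx', hfx⟩ := exists_hf hW' hclo h.hx cx
    have h1 := h.hf hW' hne C.lc hfx
    obtain ⟨y', cy', hfy⟩ := exists_hf hW' hclo h.hy cy
    have h2 := (h1.swap.hf hW' hne C.lc hfy).swap
    exact ⟨x', y', Dx, Dy, cx', cy', h2, hfx.v, hfy.v⟩
  rcases hT with hT | ⟨hφ, hT⟩
  · exact key _ _ _ _ _ _ (fr_unit C hT)
  · rcases good_cases C hW' hg hφ with h2 | h2
    · obtain ⟨D₁, D₂, h3⟩ := fr_coord hs h0 C hW' hφ h2 hT
      exact key _ _ _ _ _ _ h3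
    · obtain ⟨D₁, D₂, h3⟩ := fr_coord (T := T) hs h0 C.swap hW'
        (by rw [C.N_swap]; exact hφ) (by rw [C.N_swap]; exact h2) (by rw [C.N_swap]; exact hT)
      exact key _ _ _ _ _ _ h3

/-- The local frame at a closed point. -/
theorem exists_loc (hs : ∀ g ∈ s, g ≠ 0) (h0 : h₀ ≠ 0) (C : Chart p s t 1 h₀ G P)
    (hW' : Vle W' C.B) (hclo : Clo p W' C.B) (hg : C.Good) :
    ∃ (x y : F) (Dx Dy : Derivation ℤ F F) (cx cy : Option (Option A)),
      Lr p W' (Lc s W') x y Dx Dy ∧ (∀ a, cx = some a → cy ≠ some a) ∧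
      ∀ a, Un (Lc s W') (tN (fun _ => h₀ / C.N) t a W') (tc cx cy x y a) := by
  have hφB : h₀ / C.N ∈ C.B := by
    have h1 := C.hu
    rwa [one_mul] at h1
  have hφ0 : h₀ / C.N ≠ 0 := div_ne_zero h0 C.N0
  have hne : ∃ g ∈ s, g ≠ 0 := ⟨C.g, C.hg, hs _ C.hg⟩
  obtain ⟨x, y, Dx, Dy, cx, cy, hFr, hx, hy⟩ := exists_frame (T := fun _ => h₀ / C.N) hs h0 C hW'
    hclo hg (by
      rcases lt_or_eq_of_le (hW' _ hφB) with hφ | hφ
      · exact Or.inr ⟨hφ, FinD.of fun d hd hd1 W hW => Un.refl hφ0⟩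
      · refine Or.inl ((FinD.mem (inv_mem_vl hφB hφ)).mono fun d hd hd1 h1 W hWd => ?_)
        obtain ⟨h2, h3⟩ := (vle_adj_inv hd (ne_of_one hd1)).mp hWd
        have h4 := C.lc W h2
        have h5 : adj C.B d⁻¹ ≤ Lc s W := adj_le h4 ((lst_Lc hne W).loc.inv d (h4 hd) h3)
        exact Un.of_unit (h4 hφB) (h5 h1) hφ0)
  have hLc : Lc s W' = vl W' C.B := C.Lc_eq hs hW'
  obtain ⟨d, hd, hd1, hecd, hcold⟩ := (hFr.ec.and hFr.col).exists hW'
  have hvl := vl_adj_inv hW' hd hd1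
  have hWd : Vle W' (adj C.B d⁻¹) := (vle_adj_inv hd (ne_of_one hd1)).mpr ⟨hW', hd1⟩
  have hclod : Clo p W' (adj C.B d⁻¹) := by
    obtain ⟨n, hn, h1⟩ := hclo.vl hW'
    rw [← hvl] at h1
    exact ⟨n, hn, fun b hb => h1 b (le_vl hb)⟩
  have hLr := Lr.of hecd (C.fg.adj _) hWd hclod hx hy
  rw [hvl, ← hLc] at hLr
  exact ⟨x, y, Dx, Dy, cx, cy, hLr, hFr.cxy, fun a => hcold a W' hWd⟩

end Th

end Pool.Agent.H96.T
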