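import Pool.Agent.H96.T.Rg

/-!
# The charts of a regular projective surface
-/

set_option autoImplicit false
set_option linter.unusedSectionVars false

namespace Pool.Agent.H96.T

open Pool.Agent.H96.S Pool.Agent.H96.VL
open scoped Pointwise

/-- No colours. -/
def tE {F : Type} [Field F] : Empty → ValuationSubring F → F := fun a => a.elim

/-- Regular projective surfaces. -/
structure Rps (k : Type) {F : Type} [Field k] [Field F] [Algebra k F] {N : ℕ} (x : Fin (N + 1) → F) :
    Prop where
  ne : ∀ i, x i ≠ 0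
  reg : ∀ i, IsRegularRing (Algebra.adjoin k (Set.range fun j => x j / x i))
  frac : ∀ i, IsFractionRing (Algebra.adjoin k (Set.range fun j => x j / x i)) F

section Mod

variable {k F : Type} [Field k] [Fintype k] [DecidableEq k] [Field F] [DecidableEq F] [Algebra k F]
  {p : ℕ} [hp : Fact p.Prime] [CharP F p] [CharP k p] {N : ℕ} {x : Fin (N + 1) → F}

/-- The set of the projective model. -/
def sX (k : Type) {F : Type} [Field k] [Fintype k] [DecidableEq k] [Field F] [DecidableEq F]
    [Algebra k F] {N : ℕ} (x : Fin (N + 1) → F) : Finset F :=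
  ((Finset.univ : Finset k).erase 0).image (algebraMap k F) * Finset.univ.image x

theorem mem_sX {w : F} : w ∈ sX k x ↔ ∃ c : k, c ≠ 0 ∧ ∃ i, w = algebraMap k F c * x i := by
  rw [sX, Finset.mem_mul]
  constructor
  · rintro ⟨c', hc, b, hb, rfl⟩
    obtain ⟨c, hc2, rfl⟩ := Finset.mem_image.mp hc
    obtain ⟨i, -, rfl⟩ := Finset.mem_image.mp hb
    exact ⟨c, Finset.ne_of_mem_erase hc2, i, rfl⟩
  · rintro ⟨c, hc, i, rfl⟩
    exact ⟨_, Finset.mem_image_of_mem _ (Finset.mem_erase.mpr ⟨hc, Finset.mem_univ _⟩), _,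
      Finset.mem_image_of_mem _ (Finset.mem_univ i), rfl⟩

theorem sX_ne (hx : ∀ i, x i ≠ 0) : ∀ g ∈ sX k x, g ≠ 0 := by
  intro g hg
  obtain ⟨c, hc, i, rfl⟩ := mem_sX.mp hg
  exact mul_ne_zero ((_root_.map_ne_zero _).mpr hc) (hx i)

theorem x_mem_sX (i : Fin (N + 1)) : x i ∈ sX k x :=
  mem_sX.mpr ⟨1, one_ne_zero, i, by rw [map_one, one_mul]⟩

theorem As_sX (hx : ∀ i, x i ≠ 0) (i : Fin (N + 1)) :
    As (sX k x) (x i) = (Algebra.adjoin k (Set.range fun j => x j / x i)).toSubring := by
  apply le_antisymm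
  · refine As_le fun g hg => ?_
    obtain ⟨c, -, j, rfl⟩ := mem_sX.mp hg
    rw [mul_div_assoc]
    exact Subalgebra.mul_mem _ (Subalgebra.algebraMap_mem _ c) (Algebra.subset_adjoin ⟨j, rfl⟩)
  · intro w hw
    have hw' : w ∈ Algebra.adjoin k (Set.range fun j => x j / x i) := hw
    induction hw' using Algebra.adjoin_induction with
    | mem e he =>
      obtain ⟨j, rfl⟩ := he
      exact mem_As (x_mem_sX j)
    | algebraMap c =>
      by_cases hc : c = 0
      · rw [hc, map_zero]; exact Subring.zero_mem _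
      · have h1 : algebraMap k F c = algebraMap k F c * x i / x i := by
          rw [mul_div_cancel_right₀ _ (hx i)]
        rw [h1]
        exact mem_As (mem_sX.mpr ⟨c, hc, i, rfl⟩)
    | add a b _ _ ha hb => exact Subring.add_mem _ (ha ‹_›) (hb ‹_›)
    | mul a b _ _ ha hb => exact Subring.mul_mem _ (ha ‹_›) (hb ‹_›)

/-- **The charts of a regular projective surface.** -/
theorem Rps.exists_chart (h : Rps k x) (htr : Algebra.trdeg k F = 2) (W : ValuationSubring F) :
    ∃ C : Chart p (sX k x) (tE (F := F)) 1 0 ∅ ∅, Vle W C.B ∧ (∀ c : k, algebraMap k F c ∈ C.B) ∧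
      C.cx = none ∧ C.cy = none := by
  obtain ⟨i, -, hmax⟩ := Finset.exists_max_image Finset.univ (fun i => W.valuation (x i))
    Finset.univ_nonempty
  have hi0 := h.ne i
  have hg : x i ∈ sX k x := x_mem_sX i
  have hAs := As_sX (k := k) h.ne i
  set B := As (sX k x) (x i) with hB
  have hWB : Vle W B := by
    rw [hB, vle_As hi0]
    intro g hg
    obtain ⟨c, -, j, rfl⟩ := mem_sX.mp hg
    rw [map_mul]
    exact (mul_le_mul' (val_k W c) (hmax j (Finset.mem_univ j))).trans_eq (one_mul _)
  have hfg : Fg B := fg_As _ _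
  have hreg : IsRegularRing B := by
    have h1 : IsRegularRing (Algebra.adjoin k (Set.range fun j => x j / x i)).toSubring := h.reg i
    rw [← hAs] at h1
    exact h1
  have hft : Algebra.FiniteType k (Algebra.adjoin k (Set.range fun j => x j / x i)) := by
    rw [← Subalgebra.fg_iff_finiteType]
    exact Subalgebra.fg_def.mpr ⟨_, Set.finite_range _, rfl⟩
  have hdim : ringKrullDim B ≤ 2 := by
    have h1 : ringKrullDim (Algebra.adjoin k (Set.range fun j => x j / x i)) ≤ (2 : ℕ) := by
      refine dim_le_trdeg (k := k) ?_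
      have h2 := trdeg_le_of_injective (Algebra.adjoin k (Set.range fun j => x j / x i)).val
        Subtype.val_injective
      rw [htr] at h2
      exact_mod_cast h2
    have h2 : ringKrullDim (Algebra.adjoin k (Set.range fun j => x j / x i)).toSubring ≤ (2 : ℕ) := h1
    rw [← hAs] at h2
    exact_mod_cast h2
  have hf : ∀ w : F, ∃ a ∈ B, ∃ b ∈ B, b ≠ 0 ∧ w = a / b := by
    intro w
    have h1 := h.frac i
    obtain ⟨a, b, hb, h2⟩ := IsFractionRing.div_surjective
      (A := Algebra.adjoin k (Set.range fun j => x j / x i)) w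
    rw [hAs]
    refine ⟨a, a.2, b, b.2, fun h3 => ?_, h2.symm⟩
    exact nonZeroDivisors.ne_zero hb (Subtype.ext h3)
  have hess : Algebra.EssFiniteType k F := by
    have h1 := h.frac i
    have h2 : Algebra.EssFiniteType (Algebra.adjoin k (Set.range fun j => x j / x i)) F :=
      Algebra.EssFiniteType.of_isLocalization F
        (nonZeroDivisors (Algebra.adjoin k (Set.range fun j => x j / x i)))
    exact Algebra.EssFiniteType.comp k (Algebra.adjoin k (Set.range fun j => x j / x i)) F
  obtain ⟨W', hW', hclo, hsp⟩ := exists_clo (p := p) hfg hWB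
  obtain ⟨a, ha, b, hb, hva, hvb, hmax'⟩ := exists_params hW' hdim
  obtain ⟨Dx, Dy, hec⟩ := exists_ec_fin (p := p) hfg hW' hclo ha hb hva hvb hmax' hf
    (exists_ders p htr)
  obtain ⟨d, hd, hd1, hecd⟩ := hec.exists hW'
  have hd0 := ne_of_one hd1
  have hs := sX_ne (k := k) h.ne
  have hne : ∃ g ∈ sX k x, g ≠ 0 := ⟨_, hg, hi0⟩
  refine ⟨⟨adj B d⁻¹, x i, a, b, Dx, Dy, none, none, 0, 0, hfg.adj _, hg, le_adj, fun W₁ hW₁ => ?_,
    hecd, fun a h => (by cases h), fun a => a.elim, fun _ => rfl, fun _ => rfl, ?_, ?_, ?_,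
    fun h hh => absurd hh (Finset.notMem_empty h), fun ab hab => absurd hab (Finset.notMem_empty _)⟩,
    ?_, fun c => ?_, rfl, rfl⟩
  · obtain ⟨h1, h2⟩ := (vle_adj_inv hd hd0).mp hW₁
    have h3 : B ≤ Lc (sX k x) W₁ := by
      rw [Lc_eq hg hi0 ((vle_As hi0).mp h1)]
      exact le_vl
    exact adj_le h3 ((lst_Lc hne W₁).loc.inv d (h3 hd) h2)
  · rw [mul_zero, zero_div]; exact Subring.zero_mem _
  · rw [map_zero, mul_zero, zero_div]; exact Subring.zero_mem _
  · rw [map_zero, mul_zero, zero_div]; exact Subring.zero_mem _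
  · rw [vle_adj_inv hd hd0]
    refine ⟨hWB, le_antisymm (hWB d hd) (not_lt.mp fun h1 => ?_)⟩
    have h2 := hsp d hd h1
    rw [hd1] at h2
    exact lt_irrefl _ h2
  · refine le_adj ?_
    rw [hAs]
    exact Subalgebra.algebraMap_mem _ c

end Mod

end Pool.Agent.H96.T
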