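import Pool.Agent.H96.T.Mod

/-!
# Norms of functions on charts
-/

set_option autoImplicit false
set_option linter.unusedSectionVars false

namespace Pool.Agent.H96.T

open Polynomial Pool.Agent.H96.S Pool.Agent.H96.VL

section Nm

variable {k F : Type} [Field k] [Finite k] [Field F] [Algebra k F] {p : ℕ} [hp : Fact p.Prime]
  [CharP F p] [CharP k p] {B : Subring F} {x y : F} {Dx Dy : Derivation ℤ F F}

/-- The field is separable over the field generated by the coordinates. -/
theorem ec_sep [Algebra.EssFiniteType k F] (h : EC p B x y Dx Dy) :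
    Algebra.IsSeparable (IntermediateField.adjoin k ({x, y} : Set F)) F := by
  have i1 : Algebra.EssFiniteType (IntermediateField.adjoin k ({x, y} : Set F)) F :=
    Algebra.EssFiniteType.of_comp k _ F
  rw [← Algebra.FormallyUnramified.iff_isSeparable,
    Algebra.formallyUnramified_iff]
  have hx : x ∈ IntermediateField.adjoin k ({x, y} : Set F) :=
    IntermediateField.subset_adjoin _ _ (Or.inl rfl)
  have hy : y ∈ IntermediateField.adjoin k ({x, y} : Set F) :=
    IntermediateField.subset_adjoin _ _ (Or.inr rfl)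
  have h1 : ∀ w : Ω[F⁄IntermediateField.adjoin k ({x, y} : Set F)], w = 0 := by
    intro w
    rw [← Module.forall_dual_apply_eq_zero_iff F]
    intro l
    have h2 : l = 0 := by
      refine Derivation.liftKaehlerDifferential_unique _ _ ?_
      ext w
      have h3 := h.ext_der (E := (l.compDer (KaehlerDifferential.D
        (IntermediateField.adjoin k ({x, y} : Set F)) F)).restrictScalars ℤ) (E' := 0)
        (Derivation.map_algebraMap (l.compDer (KaehlerDifferential.D
          (IntermediateField.adjoin k ({x, y} : Set F)) F)) ⟨x, hx⟩)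
        (Derivation.map_algebraMap (l.compDer (KaehlerDifferential.D
          (IntermediateField.adjoin k ({x, y} : Set F)) F)) ⟨y, hy⟩) w
      exact h3
    rw [h2]; rfl
  exact ⟨fun a b => (h1 a).trans (h1 b).symm⟩

theorem mem_range_two {u v w : F} : w ∈ Set.range ![u, v] ↔ w ∈ ({u, v} : Set F) := by
  constructor
  · rintro ⟨i, rfl⟩
    fin_cases i
    · exact Or.inl rfl
    · exact Or.inr rfl
  · rintro (rfl | rfl)
    · exact ⟨0, rfl⟩
    · exact ⟨1, rfl⟩

open scoped IntermediateField.algebraAdjoinAdjoin in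
/-- The coordinates form a transcendence basis. -/
theorem ec_basis [Algebra.EssFiniteType k F] (h : EC p B x y Dx Dy)
    (htr : Algebra.trdeg k F = 2) : IsTranscendenceBasis k ![x, y] := by
  have hsep := ec_sep (k := k) h
  have h1 : Algebra.IsAlgebraic (Algebra.adjoin k ({x, y} : Set F)) F := by
    have i1 : Algebra.IsAlgebraic (IntermediateField.adjoin k ({x, y} : Set F)) F := inferInstance
    exact (IsFractionRing.comap_isAlgebraic_iff (A := Algebra.adjoin k ({x, y} : Set F))
      (K := IntermediateField.adjoin k ({x, y} : Set F)) (C := F)).mpr i1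
  have h3 : Algebra.IsAlgebraic (Algebra.adjoin k (Set.range ![x, y])) F := by
    have h2 : Set.range ![x, y] = {x, y} := Set.ext fun w => mem_range_two
    rw [h2]
    exact h1
  refine (Algebra.IsAlgebraic.isTranscendenceBasis_of_le_trdeg_of_finite k ![x, y] ?_)
  rw [htr, Cardinal.mk_fin]
  exact le_rfl

/-- Polynomials in algebraically independent elements. -/
theorem ev_inj {u v : F} (hi : AlgebraicIndependent k ![u, v]) :
    Function.Injective (ev k u v) := by
  let φ : k[X][X] →+* MvPolynomial (Fin 2) k :=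
    eval₂RingHom ((aeval (MvPolynomial.X 0) : k[X] →ₐ[k] MvPolynomial (Fin 2) k) :
      k[X] →+* MvPolynomial (Fin 2) k) (MvPolynomial.X 1)
  let ψ : MvPolynomial (Fin 2) k →+* k[X][X] :=
    MvPolynomial.eval₂Hom ((C : k[X] →+* k[X][X]).comp (C : k →+* k[X])) ![C X, X]
  have hC : ∀ a : k[X], φ (C a) = aeval (MvPolynomial.X 0) a := fun a => eval₂_C _ _
  have hX : φ X = MvPolynomial.X 1 := eval₂_X _ _
  have h1 : ψ.comp φ = RingHom.id _ := by
    apply Polynomial.ringHom_ext
    · intro a
      have h2 : (ψ.comp φ).comp C = (C : k[X] →+* k[X][X]) := by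
        apply Polynomial.ringHom_ext
        · intro c
          show ψ (φ (C (C c))) = C (C c)
          rw [hC, aeval_C, MvPolynomial.algebraMap_eq]
          exact MvPolynomial.eval₂_C _ _ _
        · show ψ (φ (C X)) = C X
          rw [hC, aeval_X]
          exact MvPolynomial.eval₂_X _ _ _
      exact RingHom.congr_fun h2 a
    · show ψ (φ X) = X
      rw [hX]
      exact MvPolynomial.eval₂_X _ _ _
  have h2 : ((MvPolynomial.aeval ![u, v] : MvPolynomial (Fin 2) k →ₐ[k] F) :
      MvPolynomial (Fin 2) k →+* F).comp φ = ev k u v := by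
    apply Polynomial.ringHom_ext
    · intro a
      show MvPolynomial.aeval ![u, v] (φ (C a)) = _
      rw [hC, ev_C, ← AlgHom.comp_apply]
      congr 1
      apply Polynomial.algHom_ext
      rw [AlgHom.comp_apply, aeval_X, aeval_X, MvPolynomial.aeval_X]
      rfl
    · show MvPolynomial.aeval ![u, v] (φ X) = _
      rw [hX, ev_X, MvPolynomial.aeval_X]
      rfl
  rw [← h2]
  rw [RingHom.coe_comp]
  refine Function.Injective.comp hi ?_
  exact Function.LeftInverse.injective (g := ψ) fun a => RingHom.congr_fun h1 a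

/-- Multiples of functions which are polynomials in the coordinates. -/
theorem exists_mul (hb : IsTranscendenceBasis k ![x, y]) (hk : ∀ c : k, algebraMap k F c ∈ B)
    (hx : x ∈ B) (hy : y ∈ B) {c : F} (hc : c ∈ B) (hc0 : c ≠ 0) :
    ∃ a : k[X][X], a ≠ 0 ∧ ∃ e ∈ B, ev k x y a = c * e := by
  have h1 := hb.isAlgebraic
  have h2 : Set.range ![x, y] = {x, y} := Set.ext fun w => mem_range_two
  rw [h2] at h1
  obtain ⟨q, hq0, hq⟩ := (h1.isAlgebraic c).exists_nonzero_coeff_and_aeval_eq_zero
    (mem_nonZeroDivisors_of_ne_zero hc0)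
  obtain ⟨a, ha⟩ := exists_ev_of_mem (q.coeff 0).2
  have hle : ∀ w ∈ Algebra.adjoin k ({x, y} : Set F), w ∈ B := by
    intro w hw
    obtain ⟨b, rfl⟩ := exists_ev_of_mem hw
    exact ev_mem B hk hx hy b
  have hcoe : ∀ a : Algebra.adjoin k ({x, y} : Set F), algebraMap _ F a = (a : F) := fun _ => rfl
  have hm : ∀ r : (Algebra.adjoin k ({x, y} : Set F))[X], aeval c r ∈ B := by
    intro r
    rw [aeval_eq_sum_range]
    refine B.sum_mem fun i _ => ?_
    rw [Algebra.smul_def, hcoe]
    exact B.mul_mem (hle _ (r.coeff i).2) (B.pow_mem hc i)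
  refine ⟨a, ?_, -(aeval c q.divX), B.neg_mem (hm _), ?_⟩
  · rintro rfl
    rw [map_zero] at ha
    exact hq0 (Subtype.ext ha.symm)
  · rw [ha]
    have h3 : aeval c (q.divX * X + C (q.coeff 0)) = 0 := by rw [divX_mul_X_add, hq]
    rw [map_add, map_mul, aeval_X, aeval_C, hcoe] at h3
    linear_combination h3

/-- **A squarefree polynomial for finitely many functions.** -/
theorem exists_a (hb : IsTranscendenceBasis k ![x, y]) (h : EC p B x y Dx Dy)
    (hk : ∀ c : k, algebraMap k F c ∈ B) (Z : Finset F) :
    ∃ a : k[X][X], a ≠ 0 ∧ Squarefree a ∧ ∃ n : ℕ, ∀ z ∈ Z, z ≠ 0 →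
      z * ev k x y a ^ n ∈ B ∧ z⁻¹ * ev k x y a ^ n ∈ B := by
  classical
  let _ : NormalizationMonoid k[X][X] := Nonempty.some inferInstance
  have key : ∀ z : F, z ≠ 0 → ∃ a : k[X][X], a ≠ 0 ∧ z * ev k x y a ∈ B ∧ z⁻¹ * ev k x y a ∈ B := by
    intro z hz
    obtain ⟨b, hbB, c, hcB, hc0, rfl⟩ := h.frac z
    have hb0 : b ≠ 0 := by
      rintro rfl
      exact hz (zero_div _)
    obtain ⟨a₁, ha₁, e₁, he₁, h1⟩ := exists_mul hb hk h.hx h.hy hcB hc0
    obtain ⟨a₂, ha₂, e₂, he₂, h2⟩ := exists_mul hb hk h.hx h.hy hbB hb0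
    refine ⟨a₁ * a₂, mul_ne_zero ha₁ ha₂, ?_, ?_⟩
    · have h3 : b / c * ev k x y (a₁ * a₂) = b * (e₁ * (b * e₂)) := by
        rw [map_mul, h1, h2]
        field_simp
      rw [h3]
      exact B.mul_mem hbB (B.mul_mem he₁ (B.mul_mem hbB he₂))
    · have h3 : (b / c)⁻¹ * ev k x y (a₁ * a₂) = c * (c * (e₁ * e₂)) := by
        rw [map_mul, h1, h2]
        field_simp
      rw [h3]
      exact B.mul_mem hcB (B.mul_mem hcB (B.mul_mem he₁ he₂))
  choose α hα using key
  set c : k[X][X] := ∏ z ∈ Z, (if hz : z = 0 then 1 else α z hz) with hc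
  have hc0 : c ≠ 0 := by
    rw [hc, Finset.prod_ne_zero_iff]
    intro z hz
    split_ifs with h1
    · exact one_ne_zero
    · exact (hα z h1).1
  obtain ⟨n, hn⟩ := UniqueFactorizationMonoid.exists_dvd_radical_self_pow hc0
  refine ⟨UniqueFactorizationMonoid.radical c, UniqueFactorizationMonoid.radical_ne_zero,
    UniqueFactorizationMonoid.squarefree_radical, n, fun z hz hz0 => ?_⟩
  have h1 : α z hz0 ∣ UniqueFactorizationMonoid.radical c ^ n := by
    refine dvd_trans ?_ hn
    have h2 := Finset.dvd_prod_of_mem (fun z => if hz : z = 0 then 1 else α z hz) hz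
    simp only [dif_neg hz0] at h2
    exact h2
  obtain ⟨e, he⟩ := h1
  obtain ⟨-, h3, h4⟩ := hα z hz0
  have he' : ev k x y e ∈ B := ev_mem B hk h.hx h.hy e
  rw [← map_pow, he, map_mul, ← mul_assoc, ← mul_assoc]
  exact ⟨B.mul_mem h3 he', B.mul_mem h4 he'⟩

/-- Constants are killed by derivations. -/
theorem der_k (p : ℕ) [Fact p.Prime] [CharP F p] [CharP k p] (D : Derivation ℤ F F) (c : k) :
    D (algebraMap k F c) = 0 := by
  obtain ⟨b, hb⟩ := exists_root_k (p := p) c
  rw [← hb, map_pow]
  exact der_pow D _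

/-- Derivatives of polynomials in the coordinates. -/
theorem der_ev (p : ℕ) [Fact p.Prime] [CharP F p] [CharP k p] {u v : F} (D : Derivation ℤ F F)
    (a : k[X][X]) : D (ev k u v a) = ev k u v (dX k a) * D u + ev k u v (derivative a) * D v := by
  have h1 : ∀ a : k[X], D (aeval u a) = aeval u (derivative a) * D u := by
    intro a
    induction a using Polynomial.induction_on' with
    | add a b ha hb => rw [map_add, map_add, ha, hb, map_add, map_add]; ring
    | monomial n c =>
      rw [derivative_monomial, aeval_monomial, aeval_monomial, Derivation.leibniz,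
        der_k p, smul_zero, add_zero, Derivation.leibniz_pow, map_mul, smul_eq_mul, smul_eq_mul,
        nsmul_eq_mul, map_natCast]
      ring
  induction a using Polynomial.induction_on' with
  | add a b ha hb =>
    rw [map_add, map_add, ha, hb, map_add, map_add, map_add, map_add]; ring
  | monomial n c =>
    have e1 : ev k u v (monomial n c) = aeval u c * v ^ n := by
      rw [← C_mul_X_pow_eq_monomial, map_mul, map_pow, ev_C, ev_X]
    have e2 : dX k (monomial n c) = monomial n (derivative c) := by
      ext1 i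
      rw [coeff_dX, coeff_monomial, coeff_monomial]
      split_ifs
      · rfl
      · rw [map_zero]
    have e3 : ev k u v (dX k (monomial n c)) = aeval u (derivative c) * v ^ n := by
      rw [e2, ← C_mul_X_pow_eq_monomial, map_mul, map_pow, ev_C, ev_X]
    have e4 : ev k u v (derivative (monomial n c)) = aeval u c * (n * v ^ (n - 1)) := by
      rw [derivative_monomial, ← C_mul_X_pow_eq_monomial, map_mul, map_pow, ev_C, ev_X, map_mul,
        map_natCast]
      ring
    rw [e1, e3, e4, Derivation.leibniz, h1, Derivation.leibniz_pow, smul_eq_mul, smul_eq_mul,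
      smul_eq_mul, nsmul_eq_mul]
    ring

end Nm

end Pool.Agent.H96.T
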