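import Pool.Agent.H96.T.Der

/-!
# Generation over the subring of `p`-th powers
-/

set_option autoImplicit false
set_option linter.unusedSectionVars false

namespace Pool.Agent.H96.T

open Pool.Agent.H96.S Pool.Agent.H96.VL

/-- The powers of the ideal generated by `x` and `y`. -/
def Jn {F : Type} [Field F] (R : Subring F) (x y : F) : ℕ → F → Prop
  | 0, a => a ∈ R
  | n + 1, a => ∃ b c, Jn R x y n b ∧ Jn R x y n c ∧ a = x * b + y * c

section Jn

variable {F : Type} [Field F] {R : Subring F} {x y : F}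

theorem Jn.mem (hx : x ∈ R) (hy : y ∈ R) : ∀ {n : ℕ} {a : F}, Jn R x y n a → a ∈ R := by
  intro n
  induction n with
  | zero => exact fun h => h
  | succ n ih =>
    rintro a ⟨b, c, hb, hc, rfl⟩
    exact R.add_mem (R.mul_mem hx (ih hb)) (R.mul_mem hy (ih hc))

theorem Jn.split (hx : x ∈ R) (hy : y ∈ R) : ∀ {n : ℕ} {a : F}, Jn R x y n a → ∀ {i j : ℕ},
    i + j ≤ n + 1 → ∃ b ∈ R, ∃ c ∈ R, a = x ^ i * b + y ^ j * c := by
  intro n
  induction n with
  | zero =>
    intro a ha i j hij
    cases i with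
    | zero => exact ⟨a, ha, 0, R.zero_mem, by ring⟩
    | succ i =>
      have hj : j = 0 := by omega
      subst hj
      exact ⟨0, R.zero_mem, a, ha, by ring⟩
  | succ n ih =>
    rintro a ha i j hij
    have haR := ha.mem hx hy
    obtain ⟨b, c, hb, hc, rfl⟩ := ha
    cases i with
    | zero => exact ⟨_, haR, 0, R.zero_mem, by ring⟩
    | succ i =>
      cases j with
      | zero => exact ⟨0, R.zero_mem, _, haR, by ring⟩
      | succ j =>
        obtain ⟨b₁, hb₁, b₂, hb₂, h1⟩ := ih hb (i := i) (j := j + 1) (by omega)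
        obtain ⟨c₁, hc₁, c₂, hc₂, h2⟩ := ih hc (i := i + 1) (j := j) (by omega)
        exact ⟨b₁ + y * c₁, R.add_mem hb₁ (R.mul_mem hy hc₁), x * b₂ + c₂,
          R.add_mem (R.mul_mem hx hb₂) hc₂, by rw [h1, h2]; ring⟩

end Jn

section Main

variable {p : ℕ} [hp : Fact p.Prime] {F : Type} [Field F] [CharP F p] {W : ValuationSubring F}
  {B R : Subring F} {x y : F}

/-- The subring generated by the `p`-th powers and two elements. -/
def Sg (p : ℕ) {F : Type} [Field F] (R : Subring F) (x y : F) : Subring F :=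
  Subring.closure ({c | ∃ a ∈ R, c = a ^ p} ∪ {x, y})

theorem pow_mem_Sg {a : F} (ha : a ∈ R) : a ^ p ∈ Sg p R x y :=
  Subring.subset_closure (Or.inl ⟨a, ha, rfl⟩)

theorem x_mem_Sg : x ∈ Sg p R x y := Subring.subset_closure (Or.inr (Or.inl rfl))

theorem y_mem_Sg : y ∈ Sg p R x y := Subring.subset_closure (Or.inr (Or.inr rfl))

/-- Approximation. -/
theorem approx (hR : VLocal W R) (hclo : Clo p W R)
    (hmax : ∀ b ∈ R, W.valuation b < 1 → ∃ a ∈ R, ∃ c ∈ R, b = x * a + y * c) (n : ℕ) {r : F}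
    (hr : Jn R x y n r) (hx : x ∈ R) (hy : y ∈ R) : ∃ s ∈ Sg p R x y, Jn R x y (n + 1) (r - s) := by
  induction n generalizing r with
  | zero =>
    obtain ⟨m, hm, h1⟩ := hclo
    obtain ⟨m, rfl⟩ : ∃ m', m = m' + 1 := ⟨m - 1, by omega⟩
    have hr' : r ∈ R := hr
    have h2 : W.valuation (r - (r ^ p ^ m) ^ p) < 1 := by
      have h3 := h1 r hr'
      rwa [← Valuation.map_neg, neg_sub, pow_succ, pow_mul] at h3
    obtain ⟨a, ha, c, hc, h3⟩ := hmax _ (R.sub_mem hr' (R.pow_mem (R.pow_mem hr' _) _)) h2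
    exact ⟨_, pow_mem_Sg (R.pow_mem hr' _), a, c, ha, hc, h3⟩
  | succ n ih =>
    obtain ⟨b, c, hb, hc, rfl⟩ := hr
    obtain ⟨s, hs, h1⟩ := ih hb
    obtain ⟨t, ht, h2⟩ := ih hc
    exact ⟨x * s + y * t, Subring.add_mem _ (Subring.mul_mem _ x_mem_Sg hs)
      (Subring.mul_mem _ y_mem_Sg ht), _, _, h1, h2, by ring⟩

theorem approx' (hR : VLocal W R) (hclo : Clo p W R)
    (hmax : ∀ b ∈ R, W.valuation b < 1 → ∃ a ∈ R, ∃ c ∈ R, b = x * a + y * c) (n : ℕ) {r : F}
    (hr : r ∈ R) (hx : x ∈ R) (hy : y ∈ R) : ∃ s ∈ Sg p R x y, Jn R x y n (r - s) := by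
  induction n with
  | zero => exact ⟨0, Subring.zero_mem _, by rwa [sub_zero]⟩
  | succ n ih =>
    obtain ⟨s, hs, h1⟩ := ih
    obtain ⟨t, ht, h2⟩ := approx hR hclo hmax n h1 hx hy
    exact ⟨s + t, Subring.add_mem _ hs ht, by rwa [← sub_sub]⟩

/-- The subring of `p`-th powers. -/
def Pw (p : ℕ) [Fact p.Prime] {F : Type} [Field F] [CharP F p] (R : Subring F) : Subring F :=
  R.map (frobenius F p)

theorem mem_Pw {w : F} : w ∈ Pw p R ↔ ∃ a ∈ R, w = a ^ p := by
  constructor
  · rintro ⟨a, ha, rfl⟩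
    exact ⟨a, ha, rfl⟩
  · rintro ⟨a, ha, rfl⟩
    exact ⟨a, ha, rfl⟩

/-- **Generation over the `p`-th powers.** -/
theorem le_Sg (hB : Fg B) (hW : Vle W B) (hclo : Clo p W B) (hx : x ∈ vl W B) (hy : y ∈ vl W B)
    (hvx : W.valuation x < 1) (hvy : W.valuation y < 1)
    (hmax : ∀ b ∈ vl W B, W.valuation b < 1 → ∃ a ∈ vl W B, ∃ c ∈ vl W B, b = x * a + y * c) :
    vl W B ≤ Sg p (vl W B) x y := by
  obtain ⟨E, hE⟩ := hB
  have hR : VLocal W (vl W B) := vlocal_vl hW
  have hcloR := hclo.vl hW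
  set R := vl W B with hRd
  have hBR : B ≤ R := le_vl
  let A := Pw p R
  have hAR : ∀ a : A, (a : F) ∈ R := by
    rintro ⟨a, ha⟩
    obtain ⟨b, hb, rfl⟩ := mem_Pw.mp ha
    exact R.pow_mem hb _
  -- the ideal
  let I : Ideal A :=
    { carrier := {b | W.valuation (b : F) < 1}
      add_mem' := fun {a b} ha hb => W.valuation.map_add_lt ha hb
      zero_mem' := by simp
      smul_mem' := fun c b hb => by
        show W.valuation ((c : F) * (b : F)) < 1
        rw [map_mul]
        exact (mul_le_mul' (hR.le c (hAR c)) le_rfl).trans_lt (by rw [one_mul]; exact hb) }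
  have hI : I ≤ Ideal.jacobson ⊥ := by
    intro b hb
    rw [Ideal.mem_jacobson_bot]
    intro c
    have hbc : W.valuation ((b : F) * (c : F)) < 1 := by
      rw [map_mul]
      exact (mul_le_mul' le_rfl (hR.le c (hAR c))).trans_lt (by rw [mul_one]; exact hb)
    have h1 : W.valuation ((b : F) * (c : F) + 1) = 1 := by
      have h2 : W.valuation ((b : F) * (c : F)) < W.valuation 1 := by rw [map_one]; exact hbc
      rw [W.valuation.map_add_eq_of_lt_right h2, map_one]
    have h2 : ((b : F) * (c : F) + 1) ≠ 0 := by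
      intro h0
      rw [h0, map_zero] at h1
      exact zero_ne_one h1
    obtain ⟨d, hd, h3⟩ := mem_Pw.mp (b * c + 1 : A).2
    have h3' : (b : F) * (c : F) + 1 = d ^ p := h3
    have h4 : W.valuation d = 1 := by
      rw [h3', map_pow] at h1
      exact (pow_eq_one_iff.mp h1).resolve_right hp.out.ne_zero
    have h5 := hR.inv _ hd h4
    have h6 : ((b : F) * (c : F) + 1)⁻¹ ∈ A := by
      rw [h3', ← inv_pow]
      exact mem_Pw.mpr ⟨_, h5, rfl⟩
    exact IsUnit.of_mul_eq_one ⟨_, h6⟩ (Subtype.ext (mul_inv_cancel₀ h2))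
  -- the modules
  let N' : Submodule A F :=
    { carrier := R
      add_mem' := fun ha hb => R.add_mem ha hb
      zero_mem' := R.zero_mem
      smul_mem' := fun c b hb => R.mul_mem (hAR c) hb }
  let N : Submodule A F :=
    { carrier := Sg p R x y
      add_mem' := fun ha hb => Subring.add_mem _ ha hb
      zero_mem' := Subring.zero_mem _
      smul_mem' := fun c b hb => by
        obtain ⟨a, ha, h1⟩ := mem_Pw.mp c.2
        show (c : F) * b ∈ Sg p R x y
        rw [h1]
        exact Subring.mul_mem _ (pow_mem_Sg ha) hb }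
  have hfg : N'.FG := by
    have h1 : (Algebra.adjoin A (E : Set F)).toSubmodule.FG := by
      refine fg_adjoin_of_finite E.finite_toSet fun e he => ?_
      have heB : e ∈ B := by rw [hE]; exact Subring.subset_closure he
      refine IsIntegral.of_pow hp.out.pos ?_
      have h2 : e ^ p ∈ A := mem_Pw.mpr ⟨e, hBR heB, rfl⟩
      exact isIntegral_algebraMap (x := (⟨e ^ p, h2⟩ : A))
    have h2 : N' = (Algebra.adjoin A (E : Set F)).toSubmodule := by
      apply le_antisymm
      · intro r hr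
        obtain ⟨a, ha, b, hb, hb1, rfl⟩ := mem_vl.mp (show r ∈ vl W B from hr)
        have hb0 : b ≠ 0 := ne_of_one hb1
        have hBA : ∀ c ∈ B, c ∈ Algebra.adjoin A (E : Set F) := by
          intro c hc
          rw [hE] at hc
          have h3 : Subring.closure (E : Set F) ≤ (Algebra.adjoin A (E : Set F)).toSubring := by
            rw [Subring.closure_le]
            exact fun e he => Algebra.subset_adjoin he
          exact h3 hc
        obtain ⟨q, hq⟩ : ∃ q, p = q + 1 := ⟨p - 1, by have := hp.out.pos; omega⟩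
        have h3 : a / b = (b⁻¹) ^ p * (a * b ^ q) := by
          rw [hq, pow_succ, inv_pow]
          field_simp
        have h4 : (b⁻¹) ^ p ∈ A := mem_Pw.mpr ⟨_, hR.inv _ (hBR hb) hb1, rfl⟩
        show a / b ∈ Algebra.adjoin A (E : Set F)
        rw [h3]
        exact Subalgebra.mul_mem _ (Subalgebra.algebraMap_mem _ (⟨_, h4⟩ : A))
          (Subalgebra.mul_mem _ (hBA a ha) (Subalgebra.pow_mem _ (hBA b hb) _))
      · intro r hr
        have h3 : r ∈ Algebra.adjoin A (E : Set F) := hr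
        show r ∈ R
        induction h3 using Algebra.adjoin_induction with
        | mem e he => exact hBR (by rw [hE]; exact Subring.subset_closure he)
        | algebraMap c => exact hAR c
        | add a b _ _ ha hb => exact R.add_mem (ha ‹_›) (hb ‹_›)
        | mul a b _ _ ha hb => exact R.mul_mem (ha ‹_›) (hb ‹_›)
    rw [h2]
    exact h1
  have hle : N' ≤ N ⊔ I • N' := by
    intro r hr
    have hrR : r ∈ R := hr
    obtain ⟨s, hs, h1⟩ := approx' hR hcloR hmax (2 * p) hrR hx hy
    obtain ⟨b, hb, c, hc, h2⟩ := h1.split hx hy (i := p) (j := p) (by omega)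
    have h3 : r = s + (x ^ p * b + y ^ p * c) := by rw [← h2]; ring
    rw [h3]
    have hI' : ∀ {t : F}, t ∈ R → W.valuation t < 1 → ∀ {b : F}, b ∈ R → t ^ p * b ∈ I • N' := by
      intro t ht htv b hb
      have h4 : t ^ p ∈ A := mem_Pw.mpr ⟨t, ht, rfl⟩
      have h5 : (⟨t ^ p, h4⟩ : A) ∈ I := by
        show W.valuation (t ^ p) < 1
        rw [map_pow]
        exact pow_lt_one₀ zero_le htv hp.out.ne_zero
      exact Submodule.smul_mem_smul h5 hb
    exact Submodule.add_mem_sup hs (Submodule.add_mem _ (hI' hx hvx hb) (hI' hy hvy hc))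
  exact fun r hr => Submodule.le_of_le_smul_of_le_jacobson_bot hfg hI hle hr

end Main

end Pool.Agent.H96.T
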