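import Pool.Agent.H96.T.Nm
import Pool.Agent.H96.T.Des2
import Pool.Agent.H96.S.Root

/-!
# The pointed charts of the first stage on a regular surface
-/

set_option autoImplicit false
set_option linter.unusedSectionVars false

namespace Pool.Agent.H96.T

open Polynomial Pool.Agent.H96.S Pool.Agent.H96.VL
open scoped Pointwise

section Root

variable {k F : Type} [Field k] [Finite k] [Field F] [DecidableEq F] [Algebra k F]
  {p : ℕ} [hp : Fact p.Prime] [CharP F p] [CharP k p] {s : Finset F}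

theorem opt_empty (o : Option Empty) : o = none := by
  cases o with
  | none => rfl
  | some a => exact a.elim

/-- **The pointed charts for a squarefree polynomial in the coordinates.** -/
theorem root_chart (hs : ∀ g ∈ s, g ≠ 0) (C₀ : Chart p s (tE (F := F)) 1 0 ∅ ∅)
    (hk : ∀ c : k, algebraMap k F c ∈ C₀.B) (hinj : Function.Injective (ev k C₀.x C₀.y))
    {a : k[X][X]} (ha : Squarefree a) (ha0 : a ≠ 0) {W : ValuationSubring F} (hW : Vle W C₀.B) :
    ∃ C : Chart p s (tE (F := F)) 1 (ev k C₀.x C₀.y a) ∅ {(C₀.x, C₀.y)}, C₀.B ≤ C.B ∧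
      Vle W C.B ∧ ∃ W₀ n, C.Pd W₀ n := by
  classical
  obtain ⟨W', hW', hclo, hsp⟩ := exists_clo (p := p) C₀.fg hW
  obtain ⟨x, cx, hfx⟩ := exists_hf hW' hclo C₀.ec.hx (none : Option Empty)
  obtain ⟨y, cy, hfy⟩ := exists_hf hW' hclo C₀.ec.hy (none : Option Empty)
  obtain rfl := opt_empty cx
  obtain rfl := opt_empty cy
  have hec : EC p C₀.B x y C₀.Dx C₀.Dy := hfy.ec2 (hfx.ec C₀.ec)
  have hLr := Lr.of hec C₀.fg hW' hclo hfx.v hfy.v
  have hru := Rh.of_one (k := k) hW' hk C₀.ec.hx hfx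
  have hrv := Rh.of_one (k := k) hW' hk C₀.ec.hy hfy
  have xx := C₀.ec.xx
  have xy := C₀.ec.xy
  have yx := C₀.ec.yx
  have yy := C₀.ec.yy
  have huB := C₀.ec.hx
  have hvB := C₀.ec.hy
  set u := C₀.x with hu
  set v := C₀.y with hv
  set R := vl W' C₀.B with hR
  set f := ev k u v a with hf
  have hm : ∀ b : k[X][X], ev k u v b ∈ R := fun b => le_vl (ev_mem _ hk huB hvB b)
  have hDx : C₀.Dx f = ev k u v (dX k a) := by rw [hf, der_ev p, xx, xy]; ring
  have hDy : C₀.Dy f = ev k u v (derivative a) := by rw [hf, der_ev p, yx, yy]; ring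
  have hfR : f ∈ R := hm a
  have e1 : ∀ w : F, fl (none : Option Empty) x * w = w := fun w => one_mul w
  have e2 : ∀ w : F, fl (none : Option Empty) y * w = w := fun w => one_mul w
  have hx0 := hec.x0
  have hy0 := hec.y0
  -- elimination
  obtain ⟨r, hr, h3⟩ := exists_elim p ha ha0
  obtain ⟨r', hr', h3'⟩ := exists_elim p (squarefree_swap ha) (fun h1 => ha0
    ((Bivariate.swap (R := k)).injective (by rw [h1, map_zero])))
  have hLr1 : aeval u r ∈ L3 R (1 * f) (fl (none : Option Empty) x * C₀.Dx f)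
      (fl (none : Option Empty) y * C₀.Dy f) := by
    rw [Ideal.mem_span_insert] at h3
    obtain ⟨b, z, hz, h4⟩ := h3
    rw [Ideal.mem_span_pair] at hz
    obtain ⟨c, d, rfl⟩ := hz
    refine mem_I3.mpr ⟨_, hm b, _, hm c, _, hm d, ?_⟩
    rw [e1, e2, hDx, hDy, hf, ← ev_C (u := u) (v := v), h4]
    simp only [map_add, map_mul]
    ring
  have hswap : ∀ b : k[X][X], ev k v u b ∈ R := fun b => le_vl (ev_mem _ hk hvB huB b)
  have hfs : f = ev k v u (Bivariate.swap (R := k) a) := (ev_swap a).symm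
  have hDys : C₀.Dy f = ev k v u (dX k (Bivariate.swap (R := k) a)) := by
    rw [hfs, der_ev p, yx, yy]; ring
  have hDxs : C₀.Dx f = ev k v u (derivative (Bivariate.swap (R := k) a)) := by
    rw [hfs, der_ev p, xx, xy]; ring
  have hLr2 : aeval v r' ∈ L3 R (1 * f) (fl (none : Option Empty) x * C₀.Dx f)
      (fl (none : Option Empty) y * C₀.Dy f) := by
    rw [Ideal.mem_span_insert] at h3'
    obtain ⟨b, z, hz, h4⟩ := h3'
    rw [Ideal.mem_span_pair] at hz
    obtain ⟨c, d, rfl⟩ := hz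
    refine mem_I3.mpr ⟨_, hswap b, _, hswap d, _, hswap c, ?_⟩
    rw [e1, e2, hDxs, hDys, hfs, ← ev_C (u := v) (v := u), h4]
    simp only [map_add, map_mul]
    ring
  have hru0 : aeval u r ≠ 0 := by
    intro h1
    apply hr
    have h2 : ev k u v (C r) = ev k u v 0 := by rw [ev_C, h1, map_zero]
    exact C_injective ((hinj h2).trans C_0.symm)
  have hrv0 : aeval v r' ≠ 0 := by
    intro h1
    apply hr'
    have h2 : ev k v u (C r') = 0 := by rw [ev_C, h1]
    rw [← ev_swap] at h2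
    have h3 := hinj (h2.trans (map_zero (ev k u v)).symm)
    have h4 := (Bivariate.swap (R := k)).injective (h3.trans (map_zero _).symm)
    exact C_injective (h4.trans C_0.symm)
  have h1 : ∃ i : ℤ, x ^ i ∈ L3 R (1 * f) (fl (none : Option Empty) x * C₀.Dx f)
      (fl (none : Option Empty) y * C₀.Dy f) := by
    obtain ⟨e, he⟩ := hru.div r hr
    refine ⟨e, ?_⟩
    have h2 := L3_mul he hLr1
    rwa [div_mul_cancel₀ _ hru0] at h2
  have h2 : ∃ i : ℤ, y ^ i ∈ L3 R (1 * f) (fl (none : Option Empty) x * C₀.Dx f)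
      (fl (none : Option Empty) y * C₀.Dy f) := by
    obtain ⟨e, he⟩ := hrv.div r' hr'
    refine ⟨e, ?_⟩
    have h2 := L3_mul he hLr2
    rwa [div_mul_cancel₀ _ hrv0] at h2
  obtain ⟨al, be, hal, hbe, hu3, hv3, hw3, m, hm3, hm4⟩ := hLr.fc
    (cx := (none : Option Empty)) (cy := none) (Pb.of_mem (by rw [one_mul]; exact hfR))
    (Pb.del hLr.ec (Pb.of_mem hfR)) (Pb.del2 hLr.ec (Pb.of_mem hfR)) (by
      obtain ⟨i, hi⟩ := h1
      exact ⟨i, 0, by rwa [zpow_zero, mul_one]⟩) (fun _ => h2) (fun _ => h1)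
  obtain ⟨C, n, hle, hPd, hall⟩ := exists_pd (p := p) (s := s) (t := tE (F := F)) (ε := 1) (f := f)
    (G := ∅) (P := {(u, v)}) (cx := none) (cy := none) (Dx := C₀.Dx) (Dy := C₀.Dy) hs C₀.fg C₀.hg
    C₀.hAs C₀.lc hW' hclo hfx.v hfy.v ∅
    (fun e he => absurd he (Finset.notMem_empty e))
    (fun d hd hd1 _ => hec.adj_inv hd (ne_of_one hd1))
    (fun d hd hd1 _ b W₁ hW₁ => b.elim) (fun b hb => b.elim) hal hbe hu3 hv3 hw3 hm3 hm4
    (fun h hh => absurd hh (Finset.notMem_empty h))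
    (fun ab hab => by
      rw [Finset.mem_singleton.mp hab]
      have h5 : Jc (none : Option Empty) none x y C₀.Dx C₀.Dy u v = 1 := by
        show 1 * C₀.Dx u * (1 * C₀.Dy v) - 1 * C₀.Dy u * (1 * C₀.Dx v) = 1
        rw [xx, yy, yx]; ring
      show Mn R none none x y (Jc (none : Option Empty) none x y C₀.Dx C₀.Dy u v)
      rw [h5]
      exact Mn.of_isU IsU.one)
  exact ⟨C, hle, hall W ⟨hW, hW', hsp⟩, W', n, hPd⟩

end Root

/-- The members of the family. -/
structure Fm (p : ℕ) (k : Type) {F : Type} [Field k] [Field F] [Algebra k F] (f : F)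
    (Z : Finset F) (i : Mb F) (u v : F) (Du Dv : Derivation ℤ F F) (n : ℕ) : Prop where
  ec : ∃ B : Subring F, EC p B u v Du Dv
  f0 : i.f ≠ 0
  G : i.G = ∅
  P : i.P = {(u, v)}
  hu : u ∈ i.E
  hv : v ∈ i.E
  hk : ∀ c : k, algebraMap k F c ∈ i.E
  hZ : ∀ z ∈ Z, z ≠ 0 → z * i.f ^ n ∈ i.E ∧ z⁻¹ * i.f ^ n ∈ i.E
  hDu : Du f ∈ Z
  hDv : Dv f ∈ Z

/-- The family. -/
def Fy (p : ℕ) (k : Type) {F : Type} [Field k] [Field F] [Algebra k F] (f : F)
    (Z : Finset F) (i : Mb F) : Prop := ∃ u v Du Dv n, Fm p k f Z i u v Du Dv n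

section Stage1

variable {k F : Type} [Field k] [Fintype k] [DecidableEq k] [Field F] [DecidableEq F] [Algebra k F]
  {p : ℕ} [hp : Fact p.Prime] [CharP F p] [CharP k p] {N : ℕ} {x : Fin (N + 1) → F}

theorem Rps.ess (h : Rps k x) : Algebra.EssFiniteType k F := by
  have hft : Algebra.FiniteType k (Algebra.adjoin k (Set.range fun j => x j / x 0)) := by
    rw [← Subalgebra.fg_iff_finiteType]
    exact Subalgebra.fg_def.mpr ⟨_, Set.finite_range _, rfl⟩
  have h1 := h.frac 0
  have h2 : Algebra.EssFiniteType (Algebra.adjoin k (Set.range fun j => x j / x 0)) F :=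
    Algebra.EssFiniteType.of_isLocalization F
      (nonZeroDivisors (Algebra.adjoin k (Set.range fun j => x j / x 0)))
  exact Algebra.EssFiniteType.comp k (Algebra.adjoin k (Set.range fun j => x j / x 0)) F

/-- **The first stage.** -/
theorem stage1 (h : Rps k x) (htr : Algebra.trdeg k F = 2) (f : F) (G : Finset F) :
    ∃ (Z s : Finset F) (A : Type) (_ : DecidableEq A) (_ : Finite A)
      (t : A → ValuationSubring F → F), (∀ g ∈ s, g ≠ 0) ∧ (∀ g ∈ G, g ∈ Z) ∧
      ∀ W, ∃ C : FC p s t 1 (Fy p k f Z), Vle W C.C.B ∧ C.C.Good := by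
  classical
  have hess := h.ess
  have hs := sX_ne (k := k) h.ne
  set s := sX k x with hsd
  -- finitely many regions
  set ι := {C : Chart p s (tE (F := F)) 1 0 ∅ ∅ // ∀ c : k, algebraMap k F c ∈ C.B} with hι
  have hfg : ∀ C : ι, ∃ E : Finset F, C.1.B = Subring.closure E := fun C => C.1.fg
  choose E hE using hfg
  obtain ⟨T, hT⟩ := qc E (fun W => by
    obtain ⟨C, h1, h2, -⟩ := h.exists_chart (p := p) htr W
    refine ⟨⟨C, h2⟩, fun e he => (W.valuation_le_one_iff e).mp (h1 e ?_)⟩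
    rw [hE ⟨C, h2⟩]
    exact Subring.subset_closure he)
  have hT' : ∀ W : ValuationSubring F, ∃ i ∈ T, Vle W i.1.B := by
    intro W
    obtain ⟨i, hi, h1⟩ := hT W
    refine ⟨i, hi, ?_⟩
    rw [hE i]
    exact vle_closure.mpr fun e he => (W.valuation_le_one_iff e).mpr (h1 e he)
  set Z : Finset F := G ∪ (T.image (fun i => i.1.Dx f) ∪ T.image (fun i => i.1.Dy f)) with hZ
  have hbas : ∀ i : ι, IsTranscendenceBasis k ![i.1.x, i.1.y] := fun i => ec_basis i.1.ec htr
  have hpoly : ∀ i : ι, ∃ a : k[X][X], a ≠ 0 ∧ Squarefree a ∧ ∃ n : ℕ, ∀ z ∈ Z, z ≠ 0 →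
      z * ev k i.1.x i.1.y a ^ n ∈ i.1.B ∧ z⁻¹ * ev k i.1.x i.1.y a ^ n ∈ i.1.B := fun i =>
    exists_a (hbas i) i.1.ec i.2 Z
  choose a ha0 ha n hn using hpoly
  have hinj : ∀ i : ι, Function.Injective (ev k i.1.x i.1.y) := fun i => ev_inj (hbas i).1
  set mb : ι → Mb F := fun i =>
    ⟨ev k i.1.x i.1.y (a i), ∅, {(i.1.x, i.1.y)},
      {i.1.x, i.1.y} ∪ (Finset.univ.image (algebraMap k F) ∪
        ((Z.filter (· ≠ 0)).image (fun z => z * ev k i.1.x i.1.y (a i) ^ n i) ∪
        (Z.filter (· ≠ 0)).image (fun z => z⁻¹ * ev k i.1.x i.1.y (a i) ^ n i)))⟩ with hmb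
  have hmbE : ∀ i : ι, ∀ e ∈ (mb i).E, e ∈ i.1.B := by
    intro i e he
    rcases Finset.mem_union.mp he with he | he
    · rcases Finset.mem_insert.mp he with rfl | he
      · exact i.1.ec.hx
      · rw [Finset.mem_singleton.mp he]
        exact i.1.ec.hy
    rcases Finset.mem_union.mp he with he | he
    · obtain ⟨c, -, rfl⟩ := Finset.mem_image.mp he
      exact i.2 c
    rcases Finset.mem_union.mp he with he | he
    · obtain ⟨z, hz, rfl⟩ := Finset.mem_image.mp he
      obtain ⟨hz, hz0⟩ := Finset.mem_filter.mp hz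
      exact (hn i z hz hz0).1
    · obtain ⟨z, hz, rfl⟩ := Finset.mem_image.mp he
      obtain ⟨hz, hz0⟩ := Finset.mem_filter.mp hz
      exact (hn i z hz hz0).2
  have hFm : ∀ i ∈ T, Fy p k f Z (mb i) := by
    intro i hi
    refine ⟨i.1.x, i.1.y, i.1.Dx, i.1.Dy, n i, ⟨_, i.1.ec⟩, ?_, rfl, rfl, ?_, ?_, ?_, ?_, ?_, ?_⟩
    · intro h1
      exact ha0 i (hinj i (h1.trans (map_zero _).symm))
    · exact Finset.mem_union_left _ (Finset.mem_insert_self _ _)
    · exact Finset.mem_union_left _ (Finset.mem_insert_of_mem (Finset.mem_singleton_self _))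
    · intro c
      exact Finset.mem_union_right _ (Finset.mem_union_left _
        (Finset.mem_image_of_mem _ (Finset.mem_univ c)))
    · intro z hz hz0
      constructor
      · exact Finset.mem_union_right _ (Finset.mem_union_right _ (Finset.mem_union_left _
          (Finset.mem_image_of_mem (fun z => z * ev k i.1.x i.1.y (a i) ^ n i)
            (Finset.mem_filter.mpr ⟨hz, hz0⟩))))
      · exact Finset.mem_union_right _ (Finset.mem_union_right _ (Finset.mem_union_right _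
          (Finset.mem_image_of_mem (fun z => z⁻¹ * ev k i.1.x i.1.y (a i) ^ n i)
            (Finset.mem_filter.mpr ⟨hz, hz0⟩))))
    · exact Finset.mem_union_right _ (Finset.mem_union_left _
        (Finset.mem_image_of_mem (fun i => i.1.Dx f) hi))
    · exact Finset.mem_union_right _ (Finset.mem_union_right _
        (Finset.mem_image_of_mem (fun i => i.1.Dy f) hi))
  obtain ⟨c, A, i1, i2, t, hc0, hC⟩ := descent' (p := p) (s := s) (A := Empty)
    (t := tE (F := F)) (ε := 1) (𝓕 := Fy p k f Z) (Or.inr rfl) hs (fun W => by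
      obtain ⟨i, hi, hW⟩ := hT' W
      obtain ⟨C, hle, hWC, hPd⟩ := root_chart (k := k) hs i.1 i.2 (hinj i) (ha i) (ha0 i) hW
      exact ⟨⟨mb i, hFm i hi, C, fun e he => hle (hmbE i e he)⟩, hWC, hPd⟩)
  refine ⟨Z, s * c, A, i1, i2, t, fun g hg => ?_, fun g hg => Finset.mem_union_left _ hg, hC⟩
  obtain ⟨a, ha, b, hb, rfl⟩ := Finset.mem_mul.mp hg
  exact mul_ne_zero (hs a ha) (hc0 b hb)

end Stage1

end Pool.Agent.H96.T
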