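import Pool.Agent.H96.T.Sp

/-!
# Regular rings of transcendence degree two
-/

set_option autoImplicit false
set_option linter.unusedSectionVars false

namespace Pool.Agent.H96.T

open Pool.Agent.H96.S Pool.Agent.H96.VL

/-- Incomparability. -/
theorem dim_le_of_integral {R A : Type} [CommRing R] [CommRing A] [Algebra R A]
    [Algebra.IsIntegral R A] : ringKrullDim A ≤ ringKrullDim R := by
  refine Order.krullDim_le_of_strictMono (PrimeSpectrum.comap (algebraMap R A)) ?_
  intro I J hIJ
  have : I.asIdeal.IsPrime := I.isPrime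
  exact Ideal.IsIntegral.comap_lt_comap (R := R) (I := I.asIdeal) (J := J.asIdeal) hIJ

/-- The dimension is at most the transcendence degree. -/
theorem dim_le_trdeg {k A : Type} [Field k] [CommRing A] [IsDomain A] [Algebra k A]
    [Algebra.FiniteType k A] {n : ℕ} (h : Algebra.trdeg k A ≤ n) : ringKrullDim A ≤ n := by
  obtain ⟨s, g, hg, hi⟩ := exists_integral_inj_algHom_of_fg k A
  have h1 : (s : Cardinal) ≤ n := by
    refine le_trans ?_ h
    have h2 := _root_.trdeg_le_of_injective g hg
    rwa [MvPolynomial.trdeg_of_isDomain, Cardinal.mk_fin, Cardinal.lift_natCast] at h2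
  have h2 : s ≤ n := by exact_mod_cast h1
  let _ : Algebra (MvPolynomial (Fin s) k) A := g.toRingHom.toAlgebra
  have h3 : Algebra.IsIntegral (MvPolynomial (Fin s) k) A := ⟨hi⟩
  refine (dim_le_of_integral (R := MvPolynomial (Fin s) k)).trans ?_
  rw [MvPolynomial.ringKrullDim_of_isNoetherianRing, ringKrullDim_eq_zero_of_field]
  simp only [Nat.card_eq_fintype_card, Fintype.card_fin, zero_add]
  exact_mod_cast h2

/-- Two generators of the maximal ideal. -/
theorem exists_two {R : Type} [CommRing R] [IsRegularLocalRing R] (h : ringKrullDim R ≤ 2) :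
    ∃ x y : R, IsLocalRing.maximalIdeal R = Ideal.span {x, y} := by
  classical
  have h1 : (IsLocalRing.maximalIdeal R).FG := IsNoetherian.noetherian _
  obtain ⟨s, hs, h2⟩ := Submodule.FG.exists_span_finset_card_eq_spanFinrank h1
  have h3 : s.card ≤ 2 := by
    have h4 := IsRegularLocalRing.spanFinrank_maximalIdeal (R := R)
    rw [← hs] at h4
    rw [← h4] at h
    exact_mod_cast h
  have h5 : ∃ x y : R, (s : Set R) ∪ {0} = {x, y} ∪ {0} := by
    interval_cases h6 : s.card
    · rw [Finset.card_eq_zero] at h6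
      subst h6
      exact ⟨0, 0, by simp⟩
    · obtain ⟨a, rfl⟩ := Finset.card_eq_one.mp h6
      exact ⟨a, a, by simp⟩
    · obtain ⟨a, b, -, rfl⟩ := Finset.card_eq_two.mp h6
      exact ⟨a, b, by simp⟩
  obtain ⟨x, y, h6⟩ := h5
  refine ⟨x, y, ?_⟩
  have h7 : ∀ t : Set R, Ideal.span (t ∪ {0}) = Ideal.span t := by
    intro t
    rw [Ideal.span_union, Ideal.span_singleton_zero, sup_bot_eq]
  rw [← h2, ← h7 {x, y}, ← h6, h7]

section Main

variable {F : Type} [Field F] {W : ValuationSubring F} {B : Subring F}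

/-- The maximal ideal of the localization. -/
theorem exists_params (hW : Vle W B) [IsRegularRing B] (hdim : ringKrullDim B ≤ 2) :
    ∃ x ∈ B, ∃ y ∈ B, W.valuation x < 1 ∧ W.valuation y < 1 ∧
      ∀ b ∈ vl W B, W.valuation b < 1 → ∃ a ∈ vl W B, ∃ c ∈ vl W B, b = x * a + y * c := by
  have hB' : ∀ b ∈ subalgebraOfSubring B, W.valuation b ≤ 1 := hW
  set A := subalgebraOfSubring B with hA
  have hP := centre_isPrime W A hB'
  have hreg : IsRegularRing A := inferInstanceAs (IsRegularRing B)
  obtain ⟨e⟩ := exists_equiv W A hB' (centre W A hB') fun x => Iff.rfl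
  have hrl : IsRegularLocalRing (Localization.AtPrime (centre W A hB')) :=
    IsRegularRing.isRegularLocalRing_localization _
  have hrl' : IsRegularLocalRing (vl W B) := IsRegularLocalRing.of_ringEquiv e
  have hd : ringKrullDim (vl W B) ≤ 2 := by
    have h1 : ringKrullDim (Localization.AtPrime (centre W A hB')) = ringKrullDim (vl W B) :=
      ringKrullDim_eq_of_ringEquiv e
    rw [← h1, IsLocalization.AtPrime.ringKrullDim_eq_height (centre W A hB')]
    exact (Ideal.height_le_ringKrullDim_of_ne_top hP.ne_top).trans hdim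
  obtain ⟨x, y, hxy⟩ := exists_two hd
  have hR := vlocal_vl hW
  have hmem : ∀ r : vl W B, r ∈ IsLocalRing.maximalIdeal (vl W B) ↔ W.valuation (r : F) < 1 := by
    intro r
    rw [IsLocalRing.mem_maximalIdeal, mem_nonunits_iff]
    constructor
    · intro h
      refine lt_of_le_of_ne (hR.le _ r.2) fun h1 => h ?_
      have h2 : (r : F) ≠ 0 := by
        intro h3
        rw [h3, map_zero] at h1
        exact zero_ne_one h1
      exact IsUnit.of_mul_eq_one ⟨_, hR.inv _ r.2 h1⟩ (Subtype.ext (mul_inv_cancel₀ h2))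
    · intro h1 h2
      obtain ⟨s, hs⟩ := h2.exists_right_inv
      have h3 : (r : F) * s = 1 := congrArg Subtype.val hs
      have h4 : W.valuation ((r : F) * s) < 1 := by
        rw [map_mul]
        exact (mul_le_mul' le_rfl (hR.le _ s.2)).trans_lt (by rw [mul_one]; exact h1)
      rw [h3, map_one] at h4
      exact lt_irrefl _ h4
  have hvx : W.valuation (x : F) < 1 := (hmem x).mp (by rw [hxy]; exact Ideal.subset_span (Or.inl rfl))
  have hvy : W.valuation (y : F) < 1 := (hmem y).mp (by rw [hxy]; exact Ideal.subset_span (Or.inr rfl))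
  obtain ⟨a, ha, s, hs, hs1, hxa⟩ := mem_vl.mp x.2
  obtain ⟨b, hb, t, ht, ht1, hyb⟩ := mem_vl.mp y.2
  have hs0 : s ≠ 0 := ne_of_one hs1
  have ht0 : t ≠ 0 := ne_of_one ht1
  refine ⟨a, ha, b, hb, ?_, ?_, fun c hc hv => ?_⟩
  · rwa [hxa, map_div₀, hs1, div_one] at hvx
  · rwa [hyb, map_div₀, ht1, div_one] at hvy
  · have h1 := (hmem ⟨c, hc⟩).mpr hv
    rw [hxy, Ideal.mem_span_pair] at h1
    obtain ⟨r, r', h2⟩ := h1
    have h3 : (r : F) * x + r' * y = c := congrArg Subtype.val h2
    refine ⟨r * s⁻¹, Subring.mul_mem _ r.2 (inv_mem_vl hs hs1), r' * t⁻¹,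
      Subring.mul_mem _ r'.2 (inv_mem_vl ht ht1), ?_⟩
    rw [← h3, hxa, hyb]
    field_simp

end Main

end Pool.Agent.H96.T
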