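import Pool.Agent.H96.T.PB

/-!
# Coordinates near a closed point
-/

set_option autoImplicit false
set_option linter.unusedSectionVars false

namespace Pool.Agent.H96.T

open Pool.Agent.H96.S Pool.Agent.H96.VL

section Main

variable {p : ℕ} [hp : Fact p.Prime] {F : Type} [Field F] [CharP F p] {W : ValuationSubring F}
  {B B' R : Subring F} {x y : F} {Dx Dy : Derivation ℤ F F}

theorem Sg_mono {R' : Subring F} (h : R ≤ R') : Sg p R x y ≤ Sg p R' x y := by
  refine Subring.closure_mono (Set.union_subset_union_left _ ?_)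
  rintro c ⟨a, ha, rfl⟩
  exact ⟨a, h ha, rfl⟩

/-- Only finitely many elements are needed. -/
theorem FinP.sg {r : F} (h : r ∈ Sg p R x y) : FinP R fun B' => r ∈ Sg p B' x y := by
  unfold Sg at h
  induction h using Subring.closure_induction with
  | mem c hc =>
    rcases hc with ⟨a, ha, rfl⟩ | hc
    · exact (FinP.mem ha).mono fun B' h => pow_mem_Sg h
    · exact (FinP.mem R.one_mem).mono fun B' _ => Subring.subset_closure (Or.inr hc)
  | zero => exact (FinP.mem R.one_mem).mono fun B' _ => Subring.zero_mem _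
  | one => exact (FinP.mem R.one_mem).mono fun B' _ => Subring.one_mem _
  | add a b _ _ ha hb => exact (ha.and hb).mono fun B' h => Subring.add_mem _ h.1 h.2
  | neg a _ ha => exact ha.mono fun B' h => Subring.neg_mem _ h
  | mul a b _ _ ha hb => exact (ha.and hb).mono fun B' h => Subring.mul_mem _ h.1 h.2

/-- Derivations and the subring generated by `p`-th powers. -/
theorem der_Sg {D : Derivation ℤ F F} (hR : x ∈ R ∧ y ∈ R) (hx : D x ∈ R) (hy : D y ∈ R) {r : F}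
    (h : r ∈ Sg p R x y) : r ∈ R ∧ D r ∈ R := by
  unfold Sg at h
  induction h using Subring.closure_induction with
  | mem c hc =>
    rcases hc with ⟨a, ha, rfl⟩ | rfl | rfl
    · exact ⟨R.pow_mem ha _, by rw [der_pow]; exact R.zero_mem⟩
    · exact ⟨hR.1, hx⟩
    · exact ⟨hR.2, hy⟩
  | zero => exact ⟨R.zero_mem, by rw [map_zero]; exact R.zero_mem⟩
  | one => exact ⟨R.one_mem, by rw [Derivation.map_one_eq_zero]; exact R.zero_mem⟩
  | add a b _ _ ha hb => exact ⟨R.add_mem ha.1 hb.1, by rw [map_add]; exact R.add_mem ha.2 hb.2⟩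
  | neg a _ ha => exact ⟨R.neg_mem ha.1, by rw [map_neg]; exact R.neg_mem ha.2⟩
  | mul a b _ _ ha hb =>
    refine ⟨R.mul_mem ha.1 hb.1, ?_⟩
    rw [Derivation.leibniz]
    exact R.add_mem (R.mul_mem ha.1 hb.2) (R.mul_mem hb.1 ha.2)

/-- Coordinates on a larger ring from the generators. -/
theorem ec_of_gens {E : Finset F} (hBE : B = Subring.closure (E : Set F)) (hle : B ≤ B')
    (hx : x ∈ B) (hy : y ∈ B) (xx : Dx x = 1) (xy : Dx y = 0) (yx : Dy x = 0) (yy : Dy y = 1)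
    (hE : ∀ e ∈ E, e ∈ Sg p B' x y) (hfr : ∀ w ∈ B', ∃ a ∈ B, ∃ b ∈ B, b ≠ 0 ∧ b⁻¹ ∈ B' ∧ w = a / b)
    (hf : ∀ w : F, ∃ a ∈ B, ∃ b ∈ B, b ≠ 0 ∧ w = a / b) : EC p B' x y Dx Dy := by
  have hBS : ∀ b ∈ B, b ∈ Sg p B' x y := by
    intro b hb
    rw [hBE] at hb
    have h1 : Subring.closure (E : Set F) ≤ Sg p B' x y := by
      rw [Subring.closure_le]; exact hE
    exact h1 hb
  have hS : ∀ w ∈ B', w ∈ Sg p B' x y := by
    intro w hw
    obtain ⟨a, ha, b, hb, hb0, hb', rfl⟩ := hfr w hw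
    obtain ⟨q, hq⟩ : ∃ q, p = q + 1 := ⟨p - 1, by have := hp.out.pos; omega⟩
    have h2 : a / b = a * b ^ q * (b⁻¹) ^ p := by
      rw [hq, pow_succ, inv_pow]
      field_simp
    rw [h2]
    exact Subring.mul_mem _ (Subring.mul_mem _ (hBS a ha) (Subring.pow_mem _ (hBS b hb) _))
      (pow_mem_Sg hb')
  have hxy : x ∈ B' ∧ y ∈ B' := ⟨hle hx, hle hy⟩
  exact ⟨hle hx, hle hy, xx, xy, yx, yy,
    fun b hb => (der_Sg hxy (by rw [xx]; exact B'.one_mem) (by rw [xy]; exact B'.zero_mem)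
      (hS b hb)).2,
    fun b hb => (der_Sg hxy (by rw [yx]; exact B'.zero_mem) (by rw [yy]; exact B'.one_mem)
      (hS b hb)).2, hS, fun w => by
      obtain ⟨a, ha, b, hb, hb0, h1⟩ := hf w
      exact ⟨a, hle ha, b, hle hb, hb0, h1⟩⟩

/-- **Coordinates near a closed point.** -/
theorem exists_ec_fin (hB : Fg B) (hW : Vle W B) (hclo : Clo p W B) (hx : x ∈ B) (hy : y ∈ B)
    (hvx : W.valuation x < 1) (hvy : W.valuation y < 1)
    (hmax : ∀ b ∈ vl W B, W.valuation b < 1 → ∃ a ∈ vl W B, ∃ c ∈ vl W B, b = x * a + y * c)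
    (hf : ∀ w : F, ∃ a ∈ B, ∃ b ∈ B, b ≠ 0 ∧ w = a / b)
    (hD : ∃ (x₀ y₀ : F) (D₁ D₂ : Derivation ℤ F F), D₁ x₀ = 1 ∧ D₁ y₀ = 0 ∧ D₂ x₀ = 0 ∧
      D₂ y₀ = 1) :
    ∃ Dx Dy : Derivation ℤ F F, FinD W B fun B' => EC p B' x y Dx Dy := by
  classical
  have hle := le_Sg (p := p) hB hW hclo (le_vl hx) (le_vl hy) hvx hvy hmax
  obtain ⟨Dx, Dy, xx, xy, yx, yy⟩ := exists_dual (p := p) (x := x) (y := y) (fun w => by
    obtain ⟨a, ha, b, hb, hb0, rfl⟩ := hf w
    have h1 : ∀ b ∈ B, b ∈ Subring.closure ({c | ∃ a : F, c = a ^ p} ∪ {x, y}) := by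
      intro b hb
      have h2 := hle (le_vl hb)
      refine (Subring.closure_mono (Set.union_subset_union_left _ ?_) : _ ≤ _) h2
      rintro c ⟨a, -, rfl⟩
      exact ⟨a, rfl⟩
    obtain ⟨q, hq⟩ : ∃ q, p = q + 1 := ⟨p - 1, by have := hp.out.pos; omega⟩
    have h2 : a / b = a * b ^ q * (b⁻¹) ^ p := by
      rw [hq, pow_succ, inv_pow]
      field_simp
    rw [h2]
    exact Subring.mul_mem _ (Subring.mul_mem _ (h1 a ha) (Subring.pow_mem _ (h1 b hb) _))
      (Subring.subset_closure (Or.inl ⟨_, rfl⟩))) hD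
  refine ⟨Dx, Dy, ?_⟩
  obtain ⟨E, hE⟩ := id hB
  have h1 : FinP (vl W B) fun B' => ∀ e ∈ E, e ∈ Sg p B' x y :=
    (FinP.all E fun e he => FinP.sg (hle (le_vl (by rw [hE]; exact Subring.subset_closure he))))
  refine (FinP.finD (h1.mono fun B' h _ => h)).mono fun d hd hd1 h2 => ?_
  have hd0 : d ≠ 0 := ne_of_one hd1
  refine ec_of_gens hE le_adj hx hy xx xy yx yy h2 (fun w hw => ?_) hf
  obtain ⟨a, ha, n, rfl⟩ := (mem_adj_inv hd hd0).mp hw
  refine ⟨a, ha, d ^ n, B.pow_mem hd _, pow_ne_zero _ hd0, ?_, rfl⟩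
  rw [← inv_pow]
  exact Subring.pow_mem _ mem_adj _

end Main

end Pool.Agent.H96.T
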