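import Pool.Agent.H96.T.Cmp

/-!
# The second stage on regular surfaces
-/

set_option autoImplicit false
set_option linter.unusedSectionVars false

namespace Pool.Agent.H96.T

open Pool.Agent.H96.S Pool.Agent.H96.VL
open scoped Pointwise

section Tq

variable {p : ℕ} [hp : Fact p.Prime] {k F : Type} [Field k] [Field F] [Algebra k F] [CharP F p]
  {s : Finset F} {A : Type} [DecidableEq A] {t : A → ValuationSubring F → F}
  {W W' : ValuationSubring F} {f : F} {Z : Finset F}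

/-- All functions are monomials in the colours. -/
def Qm (s : Finset F) (t : A → ValuationSubring F → F) (Z : Finset F) (W : ValuationSubring F) :
    Prop := ∀ z ∈ Z, z ≠ 0 → CM (Lc s W) (fun a => t a W) z

/-- The new colour. -/
noncomputable def tQ (H : ∀ W, ∃ C : FC p s t 1 (Fy p k f Z), Vle W C.C.B ∧ C.C.Good) :
    ValuationSubring F → F :=
  fun W => open Classical in if Qm s t Z W then 1 else tau (H W).choose

variable (H : ∀ W, ∃ C : FC p s t 1 (Fy p k f Z), Vle W C.C.B ∧ C.C.Good)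

theorem tQ_pos (h : Qm s t Z W) : tQ H W = 1 := if_pos h

theorem tQ_neg (hs : ∀ g ∈ s, g ≠ 0) (h : ¬ Qm s t Z W) (C : FC p s t 1 (Fy p k f Z))
    (hW : Vle W C.C.B) (hg : C.C.Good) : Un (Lc s W) (tQ H W) (tau C) := by
  have h1 : tQ H W = tau (H W).choose := if_neg h
  rw [h1]
  obtain ⟨h2, h3⟩ := (H W).choose_spec
  rw [Qm] at h
  push Not at h
  obtain ⟨z, hz, hz0, hcm⟩ := h
  exact cmp hs _ C h2 hW h3 hg hz hz0 hcm

/-- The new colour near a point of the strict transform. -/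
theorem tQ_coord (hs : ∀ g ∈ s, g ≠ 0) (C : FC p s t 1 (Fy p k f Z)) (hg : C.C.Good)
    {P : Finset (F × F)} {G : Finset F} (C' : Chart p s t 1 C.i.f G P) (hB : C'.B = C.C.B)
    (hN : C'.N = C.C.N) (hW' : Vle W' C'.B) (hφ : W'.valuation (tau C) < 1)
    (hv : W'.valuation (fl C'.cx C'.x * C'.Dx C.i.f / C'.N) = 1) {z κ : F} {m : ℤ} (hz : z ∈ Z)
    (hz0 : z ≠ 0) (hm : m ≠ 0) (hκ : CM (Lc s W') (fun a => t a W') κ)
    (hzκ : z = tau C ^ m * κ) :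
    FinD W' C'.B fun B' => ∀ W, Vle W B' → Un (Lc s W) (tQ H W) (tau C) := by
  have hne : ∃ g ∈ s, g ≠ 0 := ⟨C'.g, C'.hg, hs _ C'.hg⟩
  have hτ : tau C = C.i.f / C'.N := by rw [hN]; rfl
  rw [hτ] at hφ
  obtain ⟨D₁, D₂, hec⟩ := fr_coord0 (f_ne C) C' hW' hφ hv
  rw [← hτ] at hec
  obtain ⟨i, j, hi, hj, c, hcR, hcR', hc0, h1⟩ := hκ.mn C'.ec.x0 C'.ec.y0
    (fun a => C'.col a W' hW')
  rw [C'.Lc_eq hs hW'] at hcR hcR'
  refine ((FinD.mem hcR).and ((FinD.mem hcR').and hec)).mono fun d hd hd1 h2 W hWd => ?_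
  obtain ⟨h3, h4, h5, h6⟩ := h2
  obtain ⟨h7, h8⟩ := (vle_adj_inv hd (ne_of_one hd1)).mp hWd
  by_cases hQ : Qm s t Z W
  · have hlc : ∀ W, Vle W (adj C'.B d⁻¹) → adj C'.B d⁻¹ ≤ Lc s W := by
      intro W hW
      obtain ⟨h9, h10⟩ := (vle_adj_inv hd (ne_of_one hd1)).mp hW
      have h11 := C'.lc W h9
      exact adj_le h11 ((lst_Lc hne W).loc.inv d (h11 hd) h10)
    have h9 := tau_unit hs C' le_adj (C'.fg.adj _) hlc h5 h6 hi hm ⟨hc0, h3, h4⟩
      (z := z) (i := i) (j := j) (by rw [hzκ, h1]; ring) hWd (hQ z hz hz0)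
    rw [tQ_pos H hQ]
    have h10 := hlc W hWd h5.hx
    exact (Un.of_unit h10 ((lst_Lc hne W).loc.inv _ h10 h9) (tau_ne C)).symm
  · exact tQ_neg H hs hQ C (by rw [← hB]; exact h7) hg

/-- **The frames for the new colour.** -/
theorem exists_fr (hs : ∀ g ∈ s, g ≠ 0) (C : FC p s t 1 (Fy p k f Z)) (hW' : Vle W' C.C.B)
    (hclo : Clo p W' C.C.B) (hg : C.C.Good) :
    ∃ (x y : F) (Dx Dy : Derivation ℤ F F) (cx cy : Option (Option A)),
      Fr p W' C.C.B s (tN (tQ H) t) x y Dx Dy cx cy ∧ W'.valuation x < 1 ∧ W'.valuation y < 1 := by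
  classical
  have hne : ∃ g ∈ s, g ≠ 0 := ⟨C.C.g, C.C.hg, hs _ C.C.hg⟩
  refine exists_frame hs (f_ne C) C.C hW' hclo hg ?_
  by_cases hQ : Qm s t Z W'
  · left
    have h1 : FinD W' C.C.B fun B' => ∀ z ∈ Z.filter (· ≠ 0), Mn B' C.C.cx C.C.cy C.C.x C.C.y z := by
      refine FinP.finD ((FinP.all (Z.filter (· ≠ 0)) fun z hz => ?_).mono fun B h _ => h)
      obtain ⟨hz, hz0⟩ := Finset.mem_filter.mp hz
      have h1 := (hQ z hz hz0).mn C.C.ec.x0 C.C.ec.y0 (fun a => C.C.col a W' hW')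
      rw [C.C.Lc_eq hs hW'] at h1
      exact FinP.mn h1
    refine h1.mono fun d hd hd1 h2 W hWd => ?_
    obtain ⟨h7, h8⟩ := (vle_adj_inv hd (ne_of_one hd1)).mp hWd
    have h9 := C.C.lc W h7
    have h10 : adj C.C.B d⁻¹ ≤ Lc s W := adj_le h9 ((lst_Lc hne W).loc.inv d (h9 hd) h8)
    have h3 : Qm s t Z W := fun z hz hz0 =>
      mn_cm ((h2 z (Finset.mem_filter.mpr ⟨hz, hz0⟩)).mono h10) C.C.cxy
        (fun a => C.C.col a W h7)
    rw [tQ_pos H h3]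
    exact Un.refl one_ne_zero
  · right
    have hQ' := hQ
    rw [Qm] at hQ'
    push Not at hQ'
    obtain ⟨z, hz, hz0, hcm⟩ := hQ'
    obtain ⟨x, y, Dx, Dy, cy, m, κ, h⟩ := exists_tf hs C hW' hclo hg hz hz0 hcm
    have hφ : W'.valuation (tau C) < 1 := by
      have h1 : tau C = x * (tau C / x) := by rw [mul_div_cancel₀ _ h.lr.ec.x0]
      rw [h1, map_mul]
      exact (mul_le_mul' le_rfl (h.lr.loc.le _ h.un.ab)).trans_lt (by
        rw [mul_one]; exact h.lr.pt.vx)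
    refine ⟨hφ, ?_⟩
    rcases good_cases C.C hW' hg hφ with h2 | h2
    · exact tQ_coord H hs C hg C.C rfl rfl hW' hφ h2 hz hz0 h.m0 h.cm h.eq
    · exact tQ_coord H hs C hg C.C.swap rfl C.C.N_swap hW' hφ (by rw [C.C.N_swap]; exact h2) hz hz0
        h.m0 h.cm h.eq

theorem cm_mn {A' : Type} [DecidableEq A'] {R : Subring F} {T : A → F} {x y z : F}
    {cx cy : Option A'} (h : CM R T z) (hx0 : x ≠ 0) (hy0 : y ≠ 0)
    (hm : ∀ a, Mn R cx cy x y (T a)) : Mn R cx cy x y z := by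
  obtain ⟨l, h⟩ := h
  refine Mn.of_un h ?_
  clear h
  induction l with
  | nil => rw [List.map_nil, List.prod_nil]; exact Mn.one
  | cons a l ih =>
    rw [List.map_cons, List.prod_cons]
    exact Mn.mul hx0 hy0 ((hm _).zpow hx0 hy0 _) ih

/-- **The pointed charts of the second stage.** -/
theorem stage2_chart (hs : ∀ g ∈ s, g ≠ 0) (hf : ∀ g : F, g ^ p ≠ f) {G : Finset F}
    (hG : ∀ g ∈ G, g ∈ Z ∧ g ≠ 0) (W : ValuationSubring F) :
    ∃ C : Chart p s (tN (tQ H) t) 0 f G ∅, Vle W C.B ∧ ∃ W₀ n, C.Pd W₀ n := by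
  classical
  obtain ⟨C, hWC, hg⟩ := H W
  obtain ⟨W', hW', hclo, hsp⟩ := exists_clo (p := p) C.C.fg hWC
  obtain ⟨x, y, Dx, Dy, cx, cy, hFr, hx, hy⟩ := exists_fr H hs C hW' hclo hg
  obtain ⟨u, v, Du, Dv', n₀, hFm⟩ := C.hi
  obtain ⟨B₀, hecP⟩ := hFm.ec
  have hff : ¬ (Du f = 0 ∧ Dv' f = 0) := by
    rintro ⟨h1, h2⟩
    obtain ⟨g, hg⟩ := hecP.ker h1 h2
    exact hf g hg
  have hLc : Lc s W' = vl W' C.C.B := C.C.Lc_eq hs hW'
  have hne : ∃ g ∈ s, g ≠ 0 := ⟨C.C.g, C.C.hg, hs _ C.C.hg⟩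
  obtain ⟨d, hd, hd1, hecd, hcold⟩ := (hFr.ec.and hFr.col).exists hW'
  have hvl := vl_adj_inv hW' hd hd1
  have hWd : Vle W' (adj C.C.B d⁻¹) := (vle_adj_inv hd (ne_of_one hd1)).mpr ⟨hW', hd1⟩
  have hclod : Clo p W' (adj C.C.B d⁻¹) := by
    obtain ⟨n, hn, h1⟩ := hclo.vl hW'
    rw [← hvl] at h1
    exact ⟨n, hn, fun b hb => h1 b (le_vl hb)⟩
  have hLr := Lr.of hecd (C.C.fg.adj _) hWd hclod hx hy
  rw [hvl] at hLr
  have hLr' : Lr p W' (Lc s W') x y Dx Dy := by rw [hLc]; exact hLr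
  have hcolR : ∀ a, Un (vl W' C.C.B) (tN (tQ H) t a W') (tc cx cy x y a) := by
    intro a
    rw [← hLc]
    exact hcold a W' hWd
  have hecC : EC p (vl W' C.C.B) C.C.x C.C.y C.C.Dx C.C.Dy := C.C.ec.vl
  have hx0 := hLr.ec.x0
  have hy0 := hLr.ec.y0
  have hxR := hLr.ec.hx
  have hyR := hLr.ec.hy
  -- the colours are monomials
  have hmt : ∀ a, Mn (vl W' C.C.B) cx cy x y (tN (tQ H) t a W') := fun a =>
    Mn.of_un (hcolR a) (Mn.tc hx0 hy0 a)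
  have hmt' : ∀ a, Mn (Lc s W') cx cy x y (t a W') := fun a => by
    rw [hLc]; exact hmt (some a)
  have hZm : ∀ z ∈ Z, z ≠ 0 → Mn (vl W' C.C.B) cx cy x y z := by
    intro z hz hz0
    rw [← hLc]
    by_cases hQ : Qm s t Z W'
    · exact cm_mn (hQ z hz hz0) hx0 hy0 hmt'
    · refine z_mn C hW' hLr' hmt' ?_ hz hz0
      refine Mn.of_un (tQ_neg H hs hQ C hW' hg).symm ?_
      have h1 := hmt none
      rw [hLc]
      exact h1
  have hCx : ∀ a, C.C.cx = some a → Mn (vl W' C.C.B) cx cy x y C.C.x := by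
    intro a ha
    rw [← hLc]
    exact cx_mn C.C hW' hmt' ha
  have hCy : ∀ a, C.C.cy = some a → Mn (vl W' C.C.B) cx cy x y C.C.y := by
    intro a ha
    rw [← hLc]
    exact cy_mn C.C hW' hmt' ha
  have hCfx : Mn (vl W' C.C.B) cx cy x y (fl C.C.cx C.C.x) := by
    cases hc : C.C.cx with
    | none => exact Mn.one
    | some a => exact hCx a hc
  have hCfy : Mn (vl W' C.C.B) cx cy x y (fl C.C.cy C.C.y) := by
    cases hc : C.C.cy with
    | none => exact Mn.one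
    | some a => exact hCy a hc
  set R := vl W' C.C.B with hR
  have hBR : C.C.B ≤ R := le_vl
  have hJ : Mn R cx cy x y (Jc cx cy x y Dx Dy u v) := by
    refine mn_jc hLr.ec hecC hCfx hCfy ?_
    have h1 : (u, v) ∈ C.i.P := by rw [hFm.P]; exact Finset.mem_singleton_self _
    exact Mn.change hx0 hy0 hBR hCx hCy (C.C.jc (u, v) h1)
  have hPu : Pb R cx cy x y u := Pb.of_mem (hBR (C.inc _ hFm.hu))
  have hPv : Pb R cx cy x y v := Pb.of_mem (hBR (C.inc _ hFm.hv))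
  -- the partial derivatives
  have hPz : ∀ z ∈ Z, Pb R cx cy x y z := by
    intro z hz
    by_cases hz0 : z = 0
    · rw [hz0]; exact Pb.of_mem R.zero_mem
    · exact (hZm z hz hz0).pb hxR hyR hx0 hy0
  have hfu := hFm.hDu
  have hfv := hFm.hDv
  have hxu := Pb.del hLr.ec hPu
  have hxv := Pb.del hLr.ec hPv
  have hyu := Pb.del2 hLr.ec hPu
  have hyv := Pb.del2 hLr.ec hPv
  have ex : fl cx x * Dx f = fl cx x * Dx u * Du f + fl cx x * Dx v * Dv' f := by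
    rw [hecP.der Dx f]; ring
  have ey : fl cy y * Dy f = fl cy y * Dy u * Du f + fl cy y * Dy v * Dv' f := by
    rw [hecP.der Dy f]; ring
  have hPx : Pb R cx cy x y (fl cx x * Dx f) := by
    rw [ex]
    exact (hxu.mul (hPz _ hfu)).add hxR hyR (hxv.mul (hPz _ hfv))
  have hPy : Pb R cx cy x y (fl cy y * Dy f) := by
    rw [ey]
    exact (hyu.mul (hPz _ hfu)).add hxR hyR (hyv.mul (hPz _ hfv))
  -- a monomial in the ideal
  have hmon : ∀ w a b : F, Pb R cx cy x y a → Pb R cx cy x y b → Mn R cx cy x y w →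
      w = a * (fl cx x * Dx f) + b * (fl cy y * Dy f) → ∃ i j : ℤ, (cx = none → i = 0) ∧
      (cy = none → j = 0) ∧ x ^ i * y ^ j ∈ L3 R (0 * f) (fl cx x * Dx f) (fl cy y * Dy f) := by
    rintro w a b ⟨i₁, j₁, hi₁, hj₁, h1⟩ ⟨i₂, j₂, hi₂, hj₂, h2⟩ ⟨i, j, hi, hj, c, hc, hc', hc0, hw⟩ h3
    have h1' := Pb.raise (cx := cx) (cy := cy) hxR hyR (i' := i₁ + i₂) (j' := j₁ + j₂) (by omega)
      (by omega) h1
    have h2' := Pb.raise (cx := cx) (cy := cy) hxR hyR (i' := i₁ + i₂) (j' := j₁ + j₂) (by omega)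
      (by omega) h2
    refine ⟨(i₁ + i₂ : ℕ) + i, (j₁ + j₂ : ℕ) + j, fun h => by rw [hi₁ h, hi₂ h, hi h]; rfl,
      fun h => by rw [hj₁ h, hj₂ h, hj h]; rfl, ?_⟩
    have h4 : x ^ (((i₁ + i₂ : ℕ) : ℤ) + i) * y ^ (((j₁ + j₂ : ℕ) : ℤ) + j) =
        c⁻¹ * (x ^ (i₁ + i₂) * y ^ (j₁ + j₂) * a * (fl cx x * Dx f) +
          x ^ (i₁ + i₂) * y ^ (j₁ + j₂) * b * (fl cy y * Dy f)) := by
      have h5 : x ^ (i₁ + i₂) * y ^ (j₁ + j₂) * a * (fl cx x * Dx f) +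
          x ^ (i₁ + i₂) * y ^ (j₁ + j₂) * b * (fl cy y * Dy f) =
          x ^ (i₁ + i₂) * y ^ (j₁ + j₂) * w := by rw [h3]; ring
      rw [h5, hw, zpow_add₀ hx0, zpow_add₀ hy0, zpow_natCast, zpow_natCast]
      field_simp
    rw [h4]
    exact L3_mul hc' (AddSubgroup.add_mem _ (L3_mul h1' L3_v) (L3_mul h2' L3_w))
  obtain ⟨i, j, hi, hj, hij⟩ : ∃ i j : ℤ, (cx = none → i = 0) ∧
      (cy = none → j = 0) ∧ x ^ i * y ^ j ∈ L3 R (0 * f) (fl cx x * Dx f) (fl cy y * Dy f) := by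
    by_cases hu0 : Du f = 0
    · have hv0 : Dv' f ≠ 0 := fun h => hff ⟨hu0, h⟩
      refine hmon (Dv' f * Jc cx cy x y Dx Dy u v) (-(fl cy y * Dy u)) (fl cx x * Dx u) hyu.neg hxu
        ((hZm _ hfv hv0).mul hx0 hy0 hJ) ?_
      rw [ex, ey, Jc]; ring
    · refine hmon (Du f * Jc cx cy x y Dx Dy u v) (fl cy y * Dy v) (-(fl cx x * Dx v)) hyv hxv.neg
        ((hZm _ hfu hu0).mul hx0 hy0 hJ) ?_
      rw [ex, ey, Jc]; ring
  have hP0 : Pb R cx cy x y (0 * f) := by rw [zero_mul]; exact Pb.of_mem R.zero_mem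
  obtain ⟨al, be, hal, hbe, hu3, hv3, hw3, m, hm3, hm4⟩ := hLr.fc hP0 hPx hPy ⟨i, j, hij⟩
    (fun hc => ⟨j, by rwa [hi hc, zpow_zero, one_mul (y ^ j)] at hij⟩)
    (fun hc => ⟨i, by rwa [hj hc, zpow_zero, mul_one (x ^ i)] at hij⟩)
  obtain ⟨E₀, hE₀, hall⟩ := hFr.ec.and hFr.col
  obtain ⟨C', n, -, hPd, hcov⟩ := exists_pd (p := p) (s := s) (t := tN (tQ H) t) (ε := 0) (f := f)
    (G := G) (P := ∅) (cx := cx) (cy := cy) (Dx := Dx) (Dy := Dy) hs C.C.fg C.C.hg C.C.hAs C.C.lc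
    hW' hclo hx hy E₀ hE₀ (fun d hd hd1 hE => (hall d hd hd1 hE).1)
    (fun d hd hd1 hE => (hall d hd hd1 hE).2)
    hFr.cxy hal hbe hu3 hv3 hw3 hm3 hm4 (fun g hg => hZm g (hG g hg).1 (hG g hg).2)
    (fun ab hab => absurd hab (Finset.notMem_empty _))
  exact ⟨C', hcov W ⟨hWC, hW', hsp⟩, W', n, hPd⟩

end Tq

section Stage2

variable {k F : Type} [Field k] [Fintype k] [DecidableEq k] [Field F] [DecidableEq F] [Algebra k F]
  {p : ℕ} [hp : Fact p.Prime] [CharP F p] [CharP k p] {N : ℕ} {x : Fin (N + 1) → F}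

/-- **The second stage.** -/
theorem stage2 (h : Rps k x) (htr : Algebra.trdeg k F = 2) {f : F} (hf : ∀ g : F, g ^ p ≠ f)
    {G : Finset F} (hG : ∀ g ∈ G, g ≠ 0) :
    ∃ (s : Finset F) (A : Type) (_ : DecidableEq A) (_ : Finite A)
      (t : A → ValuationSubring F → F), (∀ g ∈ s, g ≠ 0) ∧
      ∀ W, ∃ C : Chart p s t 0 f G ∅, Vle W C.B ∧ C.Good := by
  classical
  obtain ⟨Z, s, A, i1, i2, t, hs, hZ, H⟩ := stage1 (p := p) h htr f G
  obtain ⟨n, hn⟩ := S.exists_hn (p := p) (stage2_chart H hs hf (G := G) fun g hg =>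
    ⟨hZ g hg, hG g hg⟩)
  obtain ⟨c, A', i3, i4, t', hc0, -, hC⟩ := S.descent (Or.inl rfl) n 0 s (Option A) inferInstance
    inferInstance (tN (tQ H) t) hs hn
  refine ⟨s * c, A', i3, i4, t', fun g hg => ?_, hC⟩
  obtain ⟨a, ha, b, hb, rfl⟩ := Finset.mem_mul.mp hg
  exact mul_ne_zero (hs a ha) (hc0 b hb)

/-- A function which is not a `p`-th power. -/
theorem exists_not_pow (h : Rps k x) (htr : Algebra.trdeg k F = 2) (p : ℕ) [Fact p.Prime]
    [CharP F p] [CharP k p] : ∃ f : F, ∀ g : F, g ^ p ≠ f := by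
  obtain ⟨C, -⟩ := h.exists_chart (p := p) htr ⊤
  refine ⟨C.x, fun g hg => ?_⟩
  have h1 := C.ec.xx
  rw [← hg, der_pow] at h1
  exact zero_ne_one h1

end Stage2

end Pool.Agent.H96.T
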